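import Mathlib

/-!
# Heights of algebraic numbers: the Weil height and the Mahler measure

For a Galois number field `E` and `x : E` we show that
`logHeight₁ x * deg x = [E : ℚ] * log (a * M(f))` where `f` is the minimal polynomial of `x` over
`ℚ`, `a` is the least positive integer clearing its denominators and `M` is the Mahler measure.
-/

set_option autoImplicit false
set_option linter.unusedSectionVars false
set_option linter.unusedSimpArgs false

open Polynomial NumberField

namespace Pool.Agent.Lib.MP_19fd7d_nt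


section GaloisProd
variable {E : Type*} [Field E] [NumberField E] [IsGalois ℚ E]

/-- The product of `X - g x` over the Galois group is a power of the minimal polynomial. -/
lemma exists_prod_gal_eq (x : E) : ∃ k : ℕ, k * (minpoly ℚ x).natDegree = Module.finrank ℚ E ∧
    ∏ g : Gal(E/ℚ), (X - C (g x)) = ((minpoly ℚ x).map (algebraMap ℚ E)) ^ k := by
  classical
  have hx : IsIntegral ℚ x := Algebra.IsIntegral.isIntegral x
  set P := (minpoly ℚ x).map (algebraMap ℚ E) with hP
  have hPmonic : P.Monic := (minpoly.monic hx).map _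
  have hsplit : P.Splits := IsGalois.splits ℚ x
  have hsep : P.Separable := Polynomial.Separable.map (IsGalois.separable ℚ x)
  have hnodup : P.roots.Nodup := nodup_roots hsep
  have hPprod : P = ∏ z ∈ P.roots.toFinset, (X - C z) := by
    conv_lhs => rw [hsplit.eq_prod_roots_of_monic hPmonic]
    rw [Finset.prod_multiset_map_count]
    refine Finset.prod_congr rfl fun z hz => ?_
    rw [Multiset.count_eq_one_of_mem hnodup (Multiset.mem_toFinset.mp hz), pow_one]
  set k := (Finset.univ.filter (fun g : Gal(E/ℚ) => g x = x)).card with hk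
  have hfib : ∀ z ∈ P.roots.toFinset,
      (Finset.univ.filter (fun g : Gal(E/ℚ) => g x = z)).card = k := by
    intro z hz
    have hz' : aeval z (minpoly ℚ x) = 0 := by
      have := (mem_roots hPmonic.ne_zero).mp (Multiset.mem_toFinset.mp hz)
      rwa [IsRoot.def, hP, eval_map_algebraMap] at this
    obtain ⟨σ, hσ⟩ := minpoly.exists_algEquiv_of_root (K := ℚ) (Algebra.IsAlgebraic.isAlgebraic x) hz'
    rw [hk]
    refine Finset.card_bij' (fun g _ => σ * g) (fun g _ => σ⁻¹ * g) ?_ ?_ ?_ ?_
    · intro g hg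
      simp only [Finset.mem_filter, Finset.mem_univ, true_and] at hg ⊢
      rw [AlgEquiv.mul_apply, hg, hσ]
    · intro g hg
      simp only [Finset.mem_filter, Finset.mem_univ, true_and] at hg ⊢
      rw [AlgEquiv.mul_apply, hg, ← hσ]
      exact σ.symm_apply_apply z
    · intro g _
      simp
    · intro g _
      simp
  have hmaps : ∀ g ∈ (Finset.univ : Finset Gal(E/ℚ)), g x ∈ P.roots.toFinset := by
    intro g _
    rw [Multiset.mem_toFinset, mem_roots hPmonic.ne_zero, IsRoot.def, hP, eval_map_algebraMap]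
    have := Polynomial.aeval_algHom_apply g.toAlgHom x (minpoly ℚ x)
    rw [minpoly.aeval, map_zero] at this
    exact this
  have hprod : ∏ g : Gal(E/ℚ), (X - C (g x)) = P ^ k := by
    rw [← Finset.prod_fiberwise_of_maps_to hmaps]
    conv_rhs => rw [hPprod]
    rw [← Finset.prod_pow]
    refine Finset.prod_congr rfl fun z hz => ?_
    rw [← hfib z hz, ← Finset.prod_const]
    refine Finset.prod_congr rfl fun g hg => ?_
    rw [(Finset.mem_filter.mp hg).2]
  refine ⟨k, ?_, hprod⟩
  have hdeg := congrArg natDegree hprod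
  rw [natDegree_prod_of_monic _ _ (fun g _ => monic_X_sub_C _), natDegree_pow,
    hP, natDegree_map] at hdeg
  simp only [natDegree_X_sub_C, Finset.sum_const, smul_eq_mul, mul_one] at hdeg
  rw [← hdeg, ← IsGalois.card_aut_eq_finrank]
  simp [Nat.card_eq_fintype_card, Finset.card_univ]

end GaloisProd


lemma mahlerMeasure_finset_prod {ι : Type*} (s : Finset ι) (p : ι → ℂ[X]) :
    (∏ i ∈ s, p i).mahlerMeasure = ∏ i ∈ s, (p i).mahlerMeasure := by
  classical
  induction s using Finset.induction_on with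
  | empty => simp
  | insert a s ha ih => rw [Finset.prod_insert ha, Finset.prod_insert ha, mahlerMeasure_mul, ih]

lemma mahlerMeasure_pow' (p : ℂ[X]) (k : ℕ) : (p ^ k).mahlerMeasure = p.mahlerMeasure ^ k := by
  induction k with
  | zero => simp
  | succ n ih => rw [pow_succ, pow_succ, mahlerMeasure_mul, ih]

section Arch
variable {E : Type*} [Field E] [NumberField E] [IsGalois ℚ E]

lemma prod_infinitePlace_eq_prod_embeddings {K : Type*} [Field K] [NumberField K] (x : K) :
    ∏ v : InfinitePlace K, max (v x) 1 ^ v.mult = ∏ φ : K →+* ℂ, max 1 ‖φ x‖ := by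
  classical
  rw [← Finset.prod_fiberwise Finset.univ InfinitePlace.mk (fun φ : K →+* ℂ => max 1 ‖φ x‖)]
  refine Finset.prod_congr rfl fun w _ => ?_
  have (φ) (hφ : φ ∈ ({φ | InfinitePlace.mk φ = w} : Finset (K →+* ℂ))) :
      max 1 ‖φ x‖ = max (w x) 1 := by
    rw [← (Finset.mem_filter.mp hφ).2, InfinitePlace.apply, max_comm]
  rw [Finset.prod_congr rfl this, Finset.prod_const, InfinitePlace.card_filter_mk_eq]

lemma prod_embeddings_eq_prod_gal (φ₀ : E →+* ℂ) (f : (E →+* ℂ) → ℝ) :
    ∏ φ : E →+* ℂ, f φ = ∏ g : Gal(E/ℚ), f (φ₀.comp (g : E →+* E)) := by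
  classical
  symm
  refine Fintype.prod_bijective (fun g : Gal(E/ℚ) => φ₀.comp (g : E →+* E)) ?_ _ _ (fun g => rfl)
  rw [Fintype.bijective_iff_injective_and_card]
  refine ⟨?_, ?_⟩
  · intro g h hgh
    ext y
    have := RingHom.congr_fun hgh y
    exact φ₀.injective this
  · rw [Embeddings.card, ← IsGalois.card_aut_eq_finrank ℚ E, Nat.card_eq_fintype_card]

lemma arch_part (x : E) {k : ℕ}
    (hk : ∏ g : Gal(E/ℚ), (X - C (g x)) = ((minpoly ℚ x).map (algebraMap ℚ E)) ^ k) :
    ∏ v : InfinitePlace E, max (v x) 1 ^ v.mult =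
      (Polynomial.map (algebraMap ℚ ℂ) (minpoly ℚ x)).mahlerMeasure ^ k := by
  obtain ⟨φ₀⟩ : Nonempty (E →+* ℂ) := inferInstance
  rw [prod_infinitePlace_eq_prod_embeddings,
    prod_embeddings_eq_prod_gal φ₀ (fun φ => max 1 ‖φ x‖)]
  have h1 : Polynomial.map (algebraMap ℚ ℂ) (minpoly ℚ x) ^ k
      = ∏ g : Gal(E/ℚ), (X - C (φ₀ (g x))) := by
    have := congrArg (Polynomial.map φ₀) hk
    rw [Polynomial.map_prod, Polynomial.map_pow, Polynomial.map_map] at this
    simp only [Polynomial.map_sub, Polynomial.map_X, Polynomial.map_C] at this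
    rw [this]
    congr 2
    exact Subsingleton.elim _ _
  rw [← mahlerMeasure_pow', h1, mahlerMeasure_finset_prod]
  refine Finset.prod_congr rfl fun g _ => ?_
  rw [mahlerMeasure_X_sub_C]
  rfl

end Arch


/-- the least positive integer clearing the denominators of `P`. -/
noncomputable def lcdn (P : ℚ[X]) : ℕ :=
  sInf {n : ℕ | 0 < n ∧ ∀ i : ℕ, ((n : ℚ) * P.coeff i).den = 1}

lemma lcdn_set_nonempty (P : ℚ[X]) :
    {n : ℕ | 0 < n ∧ ∀ i : ℕ, ((n : ℚ) * P.coeff i).den = 1}.Nonempty := by
  refine ⟨∏ i ∈ P.support, (P.coeff i).den, Finset.prod_pos fun i _ => (P.coeff i).pos, fun i => ?_⟩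
  by_cases hi : i ∈ P.support
  · rw [← Finset.mul_prod_erase _ _ hi]
    have : (((P.coeff i).den * ∏ j ∈ P.support.erase i, (P.coeff j).den : ℕ) : ℚ) * P.coeff i
        = (((P.coeff i).num * ∏ j ∈ P.support.erase i, ((P.coeff j).den : ℤ) : ℤ) : ℚ) := by
      push_cast
      have h : ((P.coeff i).den : ℚ) * P.coeff i = (P.coeff i).num := by
        rw [mul_comm]; exact Rat.mul_den_eq_num _
      rw [← h]; ring
    rw [this]
    exact Rat.den_intCast _
  · rw [notMem_support_iff.mp hi]
    simp

lemma lcdn_pos (P : ℚ[X]) : 0 < lcdn P := (Nat.sInf_mem (lcdn_set_nonempty P)).1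

lemma lcdn_spec (P : ℚ[X]) (hP : P.Monic) :
    ∃ c : ℕ → ℤ, (∀ i, (c i : ℚ) = lcdn P * P.coeff i) ∧
      (Finset.range (P.natDegree + 1)).gcd c = 1 := by
  have hmem := Nat.sInf_mem (lcdn_set_nonempty P)
  have hden : ∀ i, ((lcdn P : ℚ) * P.coeff i).den = 1 := hmem.2
  have hapos : 0 < lcdn P := lcdn_pos P
  refine ⟨fun i => ((lcdn P : ℚ) * P.coeff i).num, fun i => ?_, ?_⟩
  · exact (Rat.den_eq_one_iff _).mp (hden i)
  · set c : ℕ → ℤ := fun i => ((lcdn P : ℚ) * P.coeff i).num with hc
    have hci : ∀ i, (c i : ℚ) = lcdn P * P.coeff i := fun i => (Rat.den_eq_one_iff _).mp (hden i)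
    set g := (Finset.range (P.natDegree + 1)).gcd c with hg
    have hdvd : ∀ i ∈ Finset.range (P.natDegree + 1), g ∣ c i := fun i hi => Finset.gcd_dvd hi
    have hlead : c P.natDegree = lcdn P := by
      have h1 : (c P.natDegree : ℚ) = lcdn P := by
        rw [hci, hP.coeff_natDegree, mul_one]
      exact_mod_cast h1
    have hg0 : 0 ≤ g := by
      have : normalize g = g := Finset.normalize_gcd
      rw [← this]; exact Int.nonneg_of_normalize_eq_self (by simp)
    have hga : g ∣ (lcdn P : ℤ) := hlead ▸ hdvd _ (by simp)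
    have hgne : g ≠ 0 := by
      intro h
      rw [h, zero_dvd_iff] at hga
      have : lcdn P = 0 := by exact_mod_cast hga
      omega
    obtain ⟨a', ha'⟩ := hga
    have ha'pos : 0 < a' := by
      have h1 : (0 : ℤ) < g * a' := by rw [← ha']; exact_mod_cast hapos
      have h2 : 0 < g := lt_of_le_of_ne hg0 (Ne.symm hgne)
      exact (pos_iff_pos_of_mul_pos h1).mp h2
    have hin : a'.toNat ∈ {n : ℕ | 0 < n ∧ ∀ i : ℕ, ((n : ℚ) * P.coeff i).den = 1} := by
      refine ⟨by omega, fun i => ?_⟩
      have hcast : ((a'.toNat : ℕ) : ℚ) = (a' : ℚ) := by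
        have : ((a'.toNat : ℕ) : ℤ) = a' := Int.toNat_of_nonneg ha'pos.le
        exact_mod_cast this
      rw [hcast]
      by_cases hi : i ∈ Finset.range (P.natDegree + 1)
      · obtain ⟨c', hc'⟩ := hdvd i hi
        have h3 : (g : ℚ) * (a' * P.coeff i) = g * c' := by
          have h4 : ((lcdn P : ℕ) : ℚ) = (g : ℚ) * a' := by exact_mod_cast ha'
          rw [← mul_assoc, ← h4, ← hci, hc']
          push_cast; ring
        have h5 : (a' : ℚ) * P.coeff i = c' := mul_left_cancel₀ (by exact_mod_cast hgne) h3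
        rw [h5]; exact Rat.den_intCast _
      · rw [coeff_eq_zero_of_natDegree_lt (by simpa [Nat.lt_succ_iff] using hi)]
        simp
    have hle : lcdn P ≤ a'.toNat := Nat.sInf_le hin
    have hle' : (lcdn P : ℤ) ≤ a' := by omega
    rw [ha'] at hle'
    have : g ≤ 1 := by nlinarith
    omega

lemma iSup_fin_two (f : Fin 2 → ℝ) : ⨆ i, f i = max (f 0) (f 1) := by
  apply le_antisymm
  · refine ciSup_le fun i => ?_
    fin_cases i
    · exact le_max_left _ _
    · exact le_max_right _ _
  · exact max_le (Finite.le_ciSup f 0) (Finite.le_ciSup f 1)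

section NonArch

variable {E : Type*} [Field E]

lemma finitePlace_nonarch [NumberField E] (v : FinitePlace E) : IsNonarchimedean (v.val : AbsoluteValue E ℝ) :=
  fun x y => FinitePlace.add_le v x y

lemma gaussNorm_X_sub_C' (v : AbsoluteValue E ℝ) (z : E) :
    (X - C z : E[X]).gaussNorm v 1 = max (v z) 1 := by
  apply le_antisymm
  · obtain ⟨i, hi⟩ := exists_eq_gaussNorm v 1 (X - C z : E[X])
    rw [hi, one_pow, mul_one]
    rcases i with _ | _ | i
    · simp
    · simp
    · simp [coeff_X, coeff_C]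
  · refine max_le ?_ ?_
    · have := le_gaussNorm v (X - C z : E[X]) zero_le_one 0
      simpa using this
    · have := le_gaussNorm v (X - C z : E[X]) zero_le_one 1
      simpa [coeff_C] using this

lemma gaussNorm_finset_prod {v : AbsoluteValue E ℝ} (hv : IsNonarchimedean v)
    {ι : Type*} (s : Finset ι) (p : ι → E[X]) :
    (∏ i ∈ s, p i).gaussNorm v 1 = ∏ i ∈ s, (p i).gaussNorm v 1 := by
  classical
  induction s using Finset.induction_on with
  | empty =>
    have := gaussNorm_C v 1 (1 : E)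
    simpa using this
  | insert a s ha ih =>
    rw [Finset.prod_insert ha, Finset.prod_insert ha, gaussNorm_mul hv one_pos, ih]

lemma gaussNorm_pow' {v : AbsoluteValue E ℝ} (hv : IsNonarchimedean v) (p : E[X]) (k : ℕ) :
    (p ^ k).gaussNorm v 1 = p.gaussNorm v 1 ^ k := by
  have := gaussNorm_finset_prod hv (Finset.range k) (fun _ => p)
  simpa using this

/-- Gauss norm of a monic rational polynomial at a finite place. -/
lemma gaussNorm_map [NumberField E] (v : FinitePlace E) (P : ℚ[X]) (hP : P.Monic) :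
    (P.map (algebraMap ℚ E)).gaussNorm v.val 1 = (v (lcdn P : E))⁻¹ := by
  have hv := finitePlace_nonarch v
  obtain ⟨c, hc, hgcd⟩ := lcdn_spec P hP
  have hcast : ∀ i, (C (lcdn P : E) * P.map (algebraMap ℚ E)).coeff i = (c i : E) := by
    intro i
    rw [coeff_C_mul, coeff_map]
    have := congrArg (algebraMap ℚ E) (hc i)
    rw [map_mul] at this
    simpa using this.symm
  have hne : (lcdn P : E) ≠ 0 := by
    exact_mod_cast (lcdn_pos P).ne'
  have h1 : (C (lcdn P : E) * P.map (algebraMap ℚ E)).gaussNorm v.val 1 = 1 := by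
    apply le_antisymm
    · obtain ⟨i, hi⟩ := exists_eq_gaussNorm v.val 1 (C (lcdn P : E) * P.map (algebraMap ℚ E))
      rw [hi, one_pow, mul_one, hcast]
      exact IsNonarchimedean.apply_intCast_le_one hv
    · obtain ⟨f, hf⟩ := Finset.gcd_eq_sum_mul (Finset.range (P.natDegree + 1)) c
      rw [hgcd] at hf
      have h2 : (1 : E) = ∑ i ∈ Finset.range (P.natDegree + 1), (c i : E) * (f i : E) := by
        have := congrArg (Int.cast : ℤ → E) hf
        push_cast at this
        exact this
      have h3 : v.val (1 : E) ≤ ⨆ i : Finset.range (P.natDegree + 1),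
          v.val ((c i : E) * (f i : E)) := by
        rw [h2]
        exact hv.apply_sum_le
      rw [map_one] at h3
      have : Nonempty (Finset.range (P.natDegree + 1)) := ⟨⟨0, by simp⟩⟩
      refine h3.trans (ciSup_le fun i => ?_)
      rw [map_mul]
      have h4 : v.val ((f i : E)) ≤ 1 := IsNonarchimedean.apply_intCast_le_one hv
      have h5 := le_gaussNorm v.val (C (lcdn P : E) * P.map (algebraMap ℚ E)) zero_le_one i
      rw [one_pow, mul_one, hcast] at h5
      calc v.val ((c i : E)) * v.val ((f i : E)) ≤ v.val ((c i : E)) * 1 := by gcongr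
        _ ≤ _ := by rw [mul_one]; exact h5
  rw [gaussNorm_mul hv one_pos, gaussNorm_C] at h1
  have h6 : v.val (lcdn P : E) ≠ 0 := by simpa using hne
  have h7 : v (lcdn P : E) = v.val (lcdn P : E) := rfl
  rw [h7]
  exact eq_inv_of_mul_eq_one_right h1

/-- finite part of the height -/
noncomputable def finH {E : Type*} [Field E] [NumberField E] (x : E) : ℝ :=
  ∏ᶠ v : FinitePlace E, max (v x) 1

variable [NumberField E]

lemma hasFiniteMulSupport_max (x : E) :
    (fun v : FinitePlace E => max (v x) 1).HasFiniteMulSupport := by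
  rcases eq_or_ne x 0 with rfl | hx
  · simp [Function.HasFiniteMulSupport, Function.mulSupport]
  · refine (FinitePlace.hasFiniteMulSupport hx).subset ?_
    intro v hv
    simp only [Function.mem_mulSupport] at hv ⊢
    intro h
    rw [h, max_self] at hv
    exact hv rfl

lemma finprod_natCast_inv {a : ℕ} (ha : 0 < a) :
    ∏ᶠ v : FinitePlace E, (v (a : E))⁻¹ = (a : ℝ) ^ Module.finrank ℚ E := by
  have hne : (a : E) ≠ 0 := by exact_mod_cast ha.ne'
  have h := prod_abs_eq_one hne
  have h1 : ∏ w : InfinitePlace E, w (a : E) ^ w.mult = (a : ℝ) ^ Module.finrank ℚ E := by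
    rw [← InfinitePlace.sum_mult_eq, ← Finset.prod_pow_eq_pow_sum]
    refine Finset.prod_congr rfl fun w _ => ?_
    rw [← InfinitePlace.norm_embedding_eq, map_natCast, Complex.norm_natCast]
  rw [h1] at h
  rw [finprod_inv_distrib, eq_comm]
  exact eq_inv_of_mul_eq_one_left h

lemma map_absNorm_eq (e : 𝓞 E ≃+* 𝓞 E) (I : Ideal (𝓞 E)) :
    (I.map e).absNorm = I.absNorm := by
  rw [Ideal.absNorm_eq_index, Ideal.absNorm_eq_index]
  rw [← AddSubgroup.index_map_of_bijective (f := (e : 𝓞 E →+ 𝓞 E)) e.bijective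
    I.toAddSubgroup]
  congr 1
  ext x
  simp only [Submodule.mem_toAddSubgroup, AddSubgroup.mem_map]
  constructor
  · intro hx
    obtain ⟨y, hy, rfl⟩ := (Ideal.mem_map_of_equiv e x).mp hx
    exact ⟨y, hy, rfl⟩
  · rintro ⟨y, hy, rfl⟩
    exact Ideal.mem_map_of_mem e hy

/-- the finite part of the height is invariant under automorphisms -/
lemma finH_gal (g : Gal(E/ℚ)) (x : E) : finH (g x) = finH x := by
  obtain ⟨n, hn, a, ha, -⟩ := exists_nat_ne_zero_exists_integer_mul_eq_and_absNorm_span_eq_pow x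
  have hn' : (n : E) ≠ 0 := by exact_mod_cast hn
  have key : ∀ (y : E) (b : 𝓞 E), n * y = b → 
      (Ideal.span {b, (n : 𝓞 E)}).absNorm * finH y = (n : ℝ) ^ Module.finrank ℚ E := by
    intro y b hb
    have h1 := absNorm_mul_finprod_finitePlace_eq_one (K := E) (x := ![b, (n : 𝓞 E)]) (by
      intro h
      have := congrFun h 1
      simp at this
      exact hn this)
    have h2 : ∀ v : FinitePlace E, ⨆ i, v ((![b, (n : 𝓞 E)] i : 𝓞 E) : E)
        = v (n : E) * max (v y) 1 := by
      intro v
      have h3 : v (b : E) = v (n : E) * v y := by rw [← hb, map_mul]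
      rw [mul_max_of_nonneg _ _ (apply_nonneg v _), mul_one, ← h3, iSup_fin_two]
      simp
    simp_rw [h2] at h1
    rw [finprod_mul_distrib (FinitePlace.hasFiniteMulSupport hn') (hasFiniteMulSupport_max y)] at h1
    have h4 := finprod_natCast_inv (E := E) (Nat.pos_of_ne_zero hn)
    rw [finprod_inv_distrib] at h4
    have h5 : Set.range ![b, (n : 𝓞 E)] = {b, (n : 𝓞 E)} := by
      simp [Set.pair_comm]
    rw [h5] at h1
    have h6 : (∏ᶠ v : FinitePlace E, v (n : E)) ≠ 0 := by
      intro h
      rw [h] at h4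
      simp at h4
      have := pow_ne_zero (Module.finrank ℚ E) (Nat.cast_ne_zero (R := ℝ).mpr hn)
      exact this h4.symm
    rw [← h4]
    refine eq_inv_of_mul_eq_one_right ?_
    rw [← h1, finH]
    ring
  have hga : (n : E) * g x = (RingOfIntegers.mapRingEquiv (g : E ≃+* E) a : 𝓞 E) := by
    rw [RingOfIntegers.mapRingEquiv_apply, ← ha]
    simp
  have h1 := key x a ha
  have h2 := key (g x) _ hga
  have h3 : (Ideal.span {(RingOfIntegers.mapRingEquiv (g : E ≃+* E) a : 𝓞 E), (n : 𝓞 E)}).absNorm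
      = (Ideal.span {a, (n : 𝓞 E)}).absNorm := by
    rw [← map_absNorm_eq (RingOfIntegers.mapRingEquiv (g : E ≃+* E)) (Ideal.span {a, (n : 𝓞 E)}),
      Ideal.map_span, Set.image_pair]
    simp
  rw [h3] at h2
  have h4 : ((Ideal.span {a, (n : 𝓞 E)}).absNorm : ℝ) ≠ 0 := by
    intro h
    rw [h, zero_mul] at h1
    exact pow_ne_zero (Module.finrank ℚ E) (Nat.cast_ne_zero (R := ℝ).mpr hn) h1.symm
  exact mul_left_cancel₀ h4 (h2.trans h1.symm)

end NonArch


section Formula

variable {E : Type*} [Field E] [NumberField E] [IsGalois ℚ E]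

lemma finH_pow_card (x : E) {k : ℕ}
    (hk : ∏ g : Gal(E/ℚ), (X - C (g x)) = ((minpoly ℚ x).map (algebraMap ℚ E)) ^ k) :
    finH x ^ Module.finrank ℚ E = ((lcdn (minpoly ℚ x) : ℝ) ^ k) ^ Module.finrank ℚ E := by
  classical
  have hx : IsIntegral ℚ x := Algebra.IsIntegral.isIntegral x
  have h1 : ∏ g : Gal(E/ℚ), finH (g x) = finH x ^ Module.finrank ℚ E := by
    simp_rw [finH_gal]
    rw [Finset.prod_const, ← IsGalois.card_aut_eq_finrank, Nat.card_eq_fintype_card,
      Finset.card_univ]
  rw [← h1]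
  simp_rw [finH]
  rw [prod_finprod_comm _ _ (fun g _ => hasFiniteMulSupport_max (g x))]
  have h2 : ∀ v : FinitePlace E, ∏ g : Gal(E/ℚ), max (v (g x)) 1
      = ((v (lcdn (minpoly ℚ x) : E))⁻¹) ^ k := by
    intro v
    have hv := finitePlace_nonarch v
    rw [← gaussNorm_map v (minpoly ℚ x) (minpoly.monic hx), ← gaussNorm_pow' hv, ← hk,
      gaussNorm_finset_prod hv]
    refine Finset.prod_congr rfl fun g _ => ?_
    rw [gaussNorm_X_sub_C']
    rfl
  simp_rw [h2]
  have hpos := lcdn_pos (minpoly ℚ x)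
  have hne : (lcdn (minpoly ℚ x) : E) ≠ 0 := by exact_mod_cast hpos.ne'
  rw [← finprod_pow (by
    refine (FinitePlace.hasFiniteMulSupport hne).subset ?_
    intro v hv
    simp only [Function.mem_mulSupport] at hv ⊢
    intro h
    rw [h, inv_one] at hv
    exact hv rfl), finprod_natCast_inv hpos, ← pow_mul, ← pow_mul, mul_comm]

theorem logHeight₁_formula (x : E) :
    Height.logHeight₁ x * ((minpoly ℚ x).natDegree : ℝ) = (Module.finrank ℚ E : ℝ) *
      Real.log ((lcdn (minpoly ℚ x) : ℝ) *
        (Polynomial.map (algebraMap ℚ ℂ) (minpoly ℚ x)).mahlerMeasure) := by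
  obtain ⟨k, hk, hprod⟩ := exists_prod_gal_eq x
  have hx : IsIntegral ℚ x := Algebra.IsIntegral.isIntegral x
  have hfin : finH x = (lcdn (minpoly ℚ x) : ℝ) ^ k := by
    have h0 : (0 : ℝ) ≤ finH x := finprod_nonneg fun v => le_max_of_le_right zero_le_one
    exact (pow_left_inj₀ h0 (by positivity) Module.finrank_pos.ne').mp (finH_pow_card x hprod)
  have hmul : Height.mulHeight₁ x = ((lcdn (minpoly ℚ x) : ℝ) *
        (Polynomial.map (algebraMap ℚ ℂ) (minpoly ℚ x)).mahlerMeasure) ^ k := by
    rw [NumberField.mulHeight₁_eq, arch_part x hprod, mul_pow, ← hfin, mul_comm]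
    rfl
  rw [Height.logHeight₁_eq_log_mulHeight₁, hmul, Real.log_pow, ← hk]
  push_cast
  ring

end Formula

end Pool.Agent.Lib.MP_19fd7d_nt
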