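import Mathlib

/-!
# Lower bound for heights under rational maps

An explicit version, uniform in the field, of the lower bound `h(f(x)) ≥ D h(x) - C`.
-/

set_option autoImplicit false
set_option linter.unusedSectionVars false
set_option linter.unusedVariables false

open Height Height.AdmissibleAbsValues Polynomial

namespace Pool.Agent.Lib.MP_19fd7d_nt


section Bound

variable {K : Type*} [Field K] {σ ι κ : Type*} [Fintype κ]

lemma le_prod_max (v : AbsoluteValue K ℝ) (c : κ → K) (a : κ) :
    v (c a) ≤ ∏ a, max (v (c a)) 1 := by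
  classical
  rw [← Finset.mul_prod_erase _ _ (Finset.mem_univ a)]
  have h1 : 1 ≤ ∏ x ∈ Finset.univ.erase a, max (v (c x)) 1 :=
    Finset.one_le_prod fun i _ => le_max_right _ _
  calc v (c a) ≤ max (v (c a)) 1 * 1 := by rw [mul_one]; exact le_max_left _ _
    _ ≤ _ := by gcongr

lemma one_le_prod_max (v : AbsoluteValue K ℝ) (c : κ → K) :
    1 ≤ ∏ a, max (v (c a)) 1 := Finset.one_le_prod fun i _ => le_max_right _ _

variable [AdmissibleAbsValues K]

lemma hasFiniteMulSupport_prod_max (c : κ → K) :
    (fun v : nonarchAbsVal (K := K) => ∏ a, max (v.val (c a)) 1).HasFiniteMulSupport := by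
  fun_prop

lemma prod_mulHeight₁_eq (c : κ → K) :
    ∏ a, mulHeight₁ (c a) = (archAbsVal.map fun v : AbsoluteValue K ℝ => ∏ a, max (v (c a)) 1).prod *
      ∏ᶠ v : nonarchAbsVal (K := K), ∏ a, max (v.val (c a)) 1 := by
  simp_rw [mulHeight₁_eq]
  rw [Finset.prod_mul_distrib]
  congr 1
  · rw [Multiset.prod_map_prod]
  · rw [prod_finprod_comm]
    intro a _
    fun_prop

lemma mulHeightBound_le [Finite ι] [Nonempty ι] (q : ι → MvPolynomial σ K) (c : κ → K) (N : ℕ)
    (hN : 1 ≤ N)
    (hcoef : ∀ j s, (q j).coeff s = 0 ∨ ∃ a, (q j).coeff s = c a)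
    (hcard : ∀ j, (q j).support.card ≤ N) :
    mulHeightBound q ≤ (N : ℝ) ^ totalWeight K * ∏ a, mulHeight₁ (c a) := by
  have hval : ∀ (v : AbsoluteValue K ℝ) (j : ι) (s : σ →₀ ℕ),
      v ((q j).coeff s) ≤ ∏ a, max (v (c a)) 1 := by
    intro v j s
    rcases hcoef j s with h | ⟨a, h⟩
    · rw [h, map_zero]; exact zero_le_one.trans (one_le_prod_max v c)
    · rw [h]; exact le_prod_max v c a
  have hub : ∀ v : nonarchAbsVal (K := K),
      (⨆ j, max (⨆ s : (q j).support, v.val ((q j).coeff s)) 1) ≤ ∏ a, max (v.val (c a)) 1 := by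
    intro v
    refine ciSup_le fun j => max_le ?_ (one_le_prod_max _ _)
    exact Real.iSup_le (fun s => hval _ _ _) (zero_le_one.trans (one_le_prod_max _ _))
  have hlb : ∀ v : nonarchAbsVal (K := K),
      1 ≤ (⨆ j, max (⨆ s : (q j).support, v.val ((q j).coeff s)) 1) := by
    intro v
    obtain ⟨j⟩ := ‹Nonempty ι›
    exact Finite.le_ciSup_of_le j (le_max_right _ _)
  rw [mulHeightBound_eq, prod_mulHeight₁_eq, ← mul_assoc]
  refine mul_le_mul ?_ ?_ (finprod_nonneg fun v => zero_le_one.trans (hlb v)) ?_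
  · have h1 : (N : ℝ) ^ totalWeight K *
        (archAbsVal.map fun v : AbsoluteValue K ℝ => ∏ a, max (v (c a)) 1).prod =
        (archAbsVal.map fun v : AbsoluteValue K ℝ => (N : ℝ) * ∏ a, max (v (c a)) 1).prod := by
      rw [Multiset.prod_map_mul]
      simp [totalWeight]
    rw [h1]
    refine Multiset.prod_map_le_prod_map₀ _ _ (fun v _ => ?_) (fun v _ => ?_)
    · exact Real.iSup_nonneg fun j => Finset.sum_nonneg fun _ _ => AbsoluteValue.nonneg _ _
    · refine ciSup_le fun j => ?_
      have h4 : (AddMonoidAlgebra.coeff (q j)).sum (fun _ c' => v c')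
          = ∑ s ∈ (q j).support, v ((q j).coeff s) := rfl
      rw [h4]
      calc ∑ s ∈ (q j).support, v ((q j).coeff s)
          ≤ ∑ s ∈ (q j).support, ∏ a, max (v (c a)) 1 :=
            Finset.sum_le_sum fun s _ => hval v j s
        _ = ((q j).support.card : ℝ) * ∏ a, max (v (c a)) 1 := by
            rw [Finset.sum_const, nsmul_eq_mul]
        _ ≤ _ := by
            have h2 : ((q j).support.card : ℝ) ≤ N := by exact_mod_cast hcard j
            have h3 := one_le_prod_max v c
            gcongr
  · refine finprod_le_finprod ?_ (fun v => zero_le_one.trans (hlb v))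
      (hasFiniteMulSupport_prod_max c) hub
    refine (hasFiniteMulSupport_prod_max c).subset ?_
    intro v hv
    simp only [Function.mem_mulSupport] at hv ⊢
    intro h
    exact hv (le_antisymm ((hub v).trans h.le) (hlb v))
  · have : 0 ≤ (archAbsVal.map fun v : AbsoluteValue K ℝ => ∏ a, max (v (c a)) 1).prod :=
      Multiset.prod_map_nonneg fun v _ => zero_le_one.trans (one_le_prod_max _ _)
    positivity

end Bound


section Hom

variable {K : Type*} [Field K]

/-- The degree `D` homogenization of `P` evaluated at `(x, y)`. -/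
def hom (D : ℕ) (P : K[X]) (x y : K) : K :=
  ∑ i ∈ Finset.range (D + 1), P.coeff i * x ^ i * y ^ (D - i)

lemma hom_add (D : ℕ) (P Q : K[X]) (x y : K) : hom D (P + Q) x y = hom D P x y + hom D Q x y := by
  simp only [hom, coeff_add, add_mul, Finset.sum_add_distrib]

lemma hom_one (D : ℕ) (x y : K) : hom D (1 : K[X]) x y = y ^ D := by
  rw [hom, Finset.sum_eq_single 0]
  · simp
  · intro i _ hi
    simp [coeff_one, hi]
  · simp

lemma hom_of_ne_zero {D : ℕ} {P : K[X]} (hP : P.natDegree ≤ D) (x : K) {y : K} (hy : y ≠ 0) :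
    hom D P x y = y ^ D * P.eval (x / y) := by
  rw [eval_eq_sum_range' (Nat.lt_succ_of_le hP), Finset.mul_sum, hom]
  refine Finset.sum_congr rfl fun i hi => ?_
  have hi' : i ≤ D := Nat.lt_succ_iff.mp (Finset.mem_range.mp hi)
  rw [div_pow]
  have : y ^ D = y ^ i * y ^ (D - i) := by rw [← pow_add]; congr 1; omega
  rw [this]
  field_simp

lemma hom_zero_right (D : ℕ) (P : K[X]) (x : K) : hom D P x 0 = P.coeff D * x ^ D := by
  rw [hom, Finset.sum_eq_single D]
  · simp
  · intro i hi hne
    have hi' : i ≤ D := Nat.lt_succ_iff.mp (Finset.mem_range.mp hi)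
    rw [zero_pow (by omega), mul_zero]
  · simp

lemma hom_mul {D M : ℕ} {P U : K[X]} (hP : P.natDegree ≤ D) (hU : U.natDegree ≤ M) (x y : K) :
    hom M U x y * hom D P x y = hom (M + D) (U * P) x y := by
  rcases eq_or_ne y 0 with rfl | hy
  · rw [hom_zero_right, hom_zero_right, hom_zero_right, coeff_mul_add_eq_of_natDegree_le hU hP]
    ring
  · have h : (U * P).natDegree ≤ M + D := natDegree_mul_le.trans (add_le_add hU hP)
    rw [hom_of_ne_zero hP x hy, hom_of_ne_zero hU x hy, hom_of_ne_zero h x hy, eval_mul]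
    ring

lemma hom_bezout {D M : ℕ} {P Q U V : K[X]} (hP : P.natDegree ≤ D) (hQ : Q.natDegree ≤ D)
    (hU : U.natDegree ≤ M) (hV : V.natDegree ≤ M) (h : U * P + V * Q = 1) (x y : K) :
    hom M U x y * hom D P x y + hom M V x y * hom D Q x y = y ^ (M + D) := by
  rw [hom_mul hP hU, hom_mul hQ hV, ← hom_add, h, hom_one]

lemma hom_reflect (D : ℕ) (P : K[X]) (x y : K) : hom D (reflect D P) x y = hom D P y x := by
  rw [hom, hom, ← Finset.sum_range_reflect]
  refine Finset.sum_congr rfl fun i hi => ?_
  have hi' : i ≤ D := Nat.lt_succ_iff.mp (Finset.mem_range.mp hi)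
  have h1 : D + 1 - 1 - i = D - i := by omega
  rw [h1, coeff_reflect, revAt_le (by omega)]
  have h2 : D - (D - i) = i := by omega
  rw [h2]
  ring

/-- The degree `D` homogenization as a polynomial. -/
noncomputable def homP (D : ℕ) (P : K[X]) : MvPolynomial (Fin 2) K :=
  ∑ i ∈ Finset.range (D + 1),
    MvPolynomial.monomial (Finsupp.single 0 i + Finsupp.single 1 (D - i)) (P.coeff i)

lemma homP_isHomogeneous (D : ℕ) (P : K[X]) : (homP D P).IsHomogeneous D := by
  refine MvPolynomial.IsHomogeneous.sum _ _ _ fun i hi => ?_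
  have hi' : i ≤ D := Nat.lt_succ_iff.mp (Finset.mem_range.mp hi)
  refine MvPolynomial.isHomogeneous_monomial _ ?_
  rw [map_add, Finsupp.degree_single, Finsupp.degree_single]
  omega

lemma eval_homP (D : ℕ) (P : K[X]) (z : Fin 2 → K) :
    MvPolynomial.eval z (homP D P) = hom D P (z 0) (z 1) := by
  rw [homP, map_sum, hom]
  refine Finset.sum_congr rfl fun i _ => ?_
  rw [MvPolynomial.eval_monomial, Finsupp.prod_add_index' (by simp) (by intros; rw [pow_add]),
    Finsupp.prod_single_index (by simp), Finsupp.prod_single_index (by simp)]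
  ring

lemma homP_support_card (D : ℕ) (P : K[X]) : (homP D P).support.card ≤ D + 1 := by
  classical
  have h : (homP D P).support ⊆ (Finset.range (D + 1)).image
      (fun i => (Finsupp.single 0 i + Finsupp.single 1 (D - i) : Fin 2 →₀ ℕ)) := by
    refine (MvPolynomial.support_sum).trans ?_
    intro s hs
    obtain ⟨i, hi, hs⟩ := Finset.mem_biUnion.mp hs
    have := MvPolynomial.support_monomial_subset hs
    rw [Finset.mem_singleton] at this
    exact Finset.mem_image.mpr ⟨i, hi, this.symm⟩
  calc _ ≤ _ := Finset.card_le_card h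
    _ ≤ (Finset.range (D + 1)).card := Finset.card_image_le
    _ = D + 1 := Finset.card_range _

lemma homP_coeff (D : ℕ) (P : K[X]) (s : Fin 2 →₀ ℕ) :
    (homP D P).coeff s = 0 ∨ ∃ i : Fin (D + 1), (homP D P).coeff s = P.coeff i := by
  classical
  rw [homP, MvPolynomial.coeff_sum]
  simp_rw [MvPolynomial.coeff_monomial]
  by_cases h : ∃ i ∈ Finset.range (D + 1),
      (Finsupp.single 0 i + Finsupp.single 1 (D - i) : Fin 2 →₀ ℕ) = s
  · obtain ⟨i, hi, rfl⟩ := h
    right
    refine ⟨⟨i, Finset.mem_range.mp hi⟩, ?_⟩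
    rw [Finset.sum_eq_single i]
    · simp
    · intro j _ hj
      rw [if_neg]
      intro h
      have := DFunLike.congr_fun h 0
      simp at this
      exact hj this
    · intro h; exact absurd hi h
  · left
    push Not at h
    exact Finset.sum_eq_zero fun i hi => if_neg (h i hi)

variable [AdmissibleAbsValues K]

/-- Lower bound for the height of the image of a point under a morphism of degree `D`,
with an explicit constant in terms of the heights of the Bezout coefficients. -/
theorem logHeight_hom_ge {D M : ℕ} {P Q U V U' V' : K[X]}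
    (hP : P.natDegree ≤ D) (hQ : Q.natDegree ≤ D)
    (hU : U.natDegree ≤ M) (hV : V.natDegree ≤ M) (hU' : U'.natDegree ≤ M) (hV' : V'.natDegree ≤ M)
    (h : U * P + V * Q = 1) (h' : U' * reflect D P + V' * reflect D Q = 1) (x y : K) :
    D * logHeight ![x, y] ≤ logHeight ![hom D P x y, hom D Q x y] +
      totalWeight K * Real.log (2 * (M + 1)) +
      ∑ T : Fin 2 × Fin 2, ∑ i ∈ Finset.range (M + 1),
        logHeight₁ ((![![reflect M U', reflect M V'], ![U, V]] T.1 T.2).coeff i) := by
  set T : Fin 2 × Fin 2 → K[X] := fun T => ![![reflect M U', reflect M V'], ![U, V]] T.1 T.2 with hT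
  set q : Fin 2 × Fin 2 → MvPolynomial (Fin 2) K := fun a => homP M (T a) with hq
  have hRP : (reflect D P).natDegree ≤ D := natDegree_reflect_le.trans (max_le le_rfl hP)
  have hRQ : (reflect D Q).natDegree ≤ D := natDegree_reflect_le.trans (max_le le_rfl hQ)
  have key := logHeight_eval_ge (K := K) (ι := Fin 2) (ι' := Fin 2) (M := M) (N := D) (q := q)
    (fun a => homP_isHomogeneous M (T a)) ![homP D P, homP D Q] (x := ![x, y]) (by
      intro k
      fin_cases k
      · have h1 := hom_bezout hRP hRQ hU' hV' h' y x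
        rw [hom_reflect D, hom_reflect D] at h1
        simpa [hq, hT, eval_homP, Fin.sum_univ_two, hom_reflect] using h1
      · have h1 := hom_bezout hP hQ hU hV h x y
        simpa [hq, hT, eval_homP, Fin.sum_univ_two] using h1)
  have himg : (fun j => MvPolynomial.eval ![x, y] ((![homP D P, homP D Q] : Fin 2 → _) j))
      = ![hom D P x y, hom D Q x y] := by
    funext j
    fin_cases j <;> simp [eval_homP]
  rw [himg] at key
  -- bound the constant
  have hB := mulHeightBound_le q (fun a : (Fin 2 × Fin 2) × Fin (M + 1) => (T a.1).coeff a.2)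
    (M + 1) (by omega) (by
      intro a s
      rcases homP_coeff M (T a) s with h | ⟨i, h⟩
      · exact Or.inl h
      · exact Or.inr ⟨(a, i), h⟩) (fun a => homP_support_card M (T a))
  set PP : ℝ := ∏ a : (Fin 2 × Fin 2) × Fin (M + 1), mulHeight₁ ((T a.1).coeff a.2) with hPP
  have hPP1 : 1 ≤ PP := Finset.one_le_prod fun a _ => one_le_mulHeight₁ _
  have hmax : max (mulHeightBound q) 1 ≤ ((M + 1 : ℕ) : ℝ) ^ totalWeight K * PP := by
    refine max_le hB ?_
    have : (1 : ℝ) ≤ ((M + 1 : ℕ) : ℝ) ^ totalWeight K := one_le_pow₀ (by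
      push_cast; linarith [(Nat.cast_nonneg M : (0 : ℝ) ≤ M)])
    calc (1 : ℝ) = 1 * 1 := (one_mul 1).symm
      _ ≤ _ := by gcongr
  have hlog : Real.log ((Nat.card (Fin 2) : ℝ) ^ totalWeight K * max (mulHeightBound q) 1) ≤
      totalWeight K * Real.log (2 * (M + 1)) + Real.log PP := by
    have hpos : (0 : ℝ) < max (mulHeightBound q) 1 := lt_of_lt_of_le one_pos (le_max_right _ _)
    calc Real.log ((Nat.card (Fin 2) : ℝ) ^ totalWeight K * max (mulHeightBound q) 1)
        ≤ Real.log ((2 * (M + 1) : ℝ) ^ totalWeight K * PP) := by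
          apply Real.log_le_log (by simp)
          rw [mul_pow, mul_assoc]
          simp only [Nat.card_eq_fintype_card, Fintype.card_fin, Nat.cast_ofNat]
          push_cast at hmax
          gcongr
      _ = _ := by
          rw [Real.log_mul (by positivity) (by positivity), Real.log_pow]
  have hPPlog : Real.log PP = ∑ T' : Fin 2 × Fin 2, ∑ i ∈ Finset.range (M + 1),
        logHeight₁ ((T T').coeff i) := by
    rw [hPP, Real.log_prod (fun a _ => mulHeight₁_ne_zero _), Fintype.sum_prod_type]
    refine Finset.sum_congr rfl fun T' _ => ?_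
    rw [Finset.sum_range]
    rfl
  rw [hPPlog] at hlog
  linarith

end Hom


end Pool.Agent.Lib.MP_19fd7d_nt
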