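import Mathlib
import Pool.Agent.Lib.MP_19fd7d_nt.Heights
import Pool.Agent.Lib.MP_19fd7d_nt.RatMap

/-!
# The Northcott property implies the universal strong Bogomolov property
-/

set_option autoImplicit false

open Polynomial NumberField

namespace Pool.Agent.Lib.MP_19fd7d_nt

/-- The algebraic numbers. -/
abbrev Qb := AlgebraicClosure ℚ

theorem qb_isAlgebraic : Algebra.IsAlgebraic ℚ (AlgebraicClosure ℚ) := by
  have h := AlgebraicClosure.isAlgebraic ℚ
  exact h

attribute [scoped instance] qb_isAlgebraic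

theorem qb_isAlgClosure : IsAlgClosure ℚ (AlgebraicClosure ℚ) := ⟨inferInstance, inferInstance⟩

attribute [scoped instance] qb_isAlgClosure

theorem qb_normal : Normal ℚ (AlgebraicClosure ℚ) := IsAlgClosure.normal ℚ (AlgebraicClosure ℚ)

attribute [scoped instance] qb_normal

theorem qb_isGalois : IsGalois ℚ (AlgebraicClosure ℚ) := {}

attribute [scoped instance] qb_isGalois

/-- The absolute logarithmic Weil height, through the Mahler measure. -/
noncomputable def hA (β : Qb) : ℝ :=
  Real.log (((sInf {n : ℕ | 0 < n ∧ ∀ i : ℕ, ((n : ℚ) * (minpoly ℚ β).coeff i).den = 1} : ℕ) : ℝ) *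
    (Polynomial.map (algebraMap ℚ ℂ) (minpoly ℚ β)).mahlerMeasure) /
    ((minpoly ℚ β).natDegree : ℝ)

section Formula

lemma numberField_of_finiteDimensional (E : IntermediateField ℚ Qb) [FiniteDimensional ℚ E] :
    NumberField E := { to_charZero := inferInstance, to_finiteDimensional := inferInstance }

lemma logHeight₁_eq_hA (E : IntermediateField ℚ Qb) [NumberField E] [IsGalois ℚ E] (x : E) :
    Height.logHeight₁ x = (Module.finrank ℚ E : ℝ) * hA (x : Qb) := by
  have h := logHeight₁_formula x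
  have hmin : minpoly ℚ (x : Qb) = minpoly ℚ x := minpoly.algebraMap_eq (algebraMap E Qb).injective x
  have hx : IsIntegral ℚ x := Algebra.IsIntegral.isIntegral x
  have hdeg : ((minpoly ℚ x).natDegree : ℝ) ≠ 0 := by
    exact_mod_cast (minpoly.natDegree_pos hx).ne'
  rw [hA, hmin]
  rw [lcdn] at h
  field_simp
  linarith

/-- Every finite set of algebraic numbers lies in a finite Galois extension of `ℚ`. -/
lemma exists_galois_subset (S : Finset Qb) :
    ∃ E : IntermediateField ℚ Qb, FiniteDimensional ℚ E ∧ IsGalois ℚ E ∧ ∀ x ∈ S, x ∈ E := by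
  classical
  let E₀ : IntermediateField ℚ Qb := IntermediateField.adjoin ℚ (S : Set Qb)
  have : FiniteDimensional ℚ E₀ := IntermediateField.finiteDimensional_adjoin
    (fun x _ => Algebra.IsIntegral.isIntegral x)
  have hn : Normal ℚ (IntermediateField.normalClosure ℚ E₀ Qb) := normalClosure.normal ℚ E₀ Qb
  refine ⟨IntermediateField.normalClosure ℚ E₀ Qb, inferInstance, ⟨⟩, fun x hx => ?_⟩
  exact E₀.le_normalClosure (IntermediateField.subset_adjoin ℚ _ hx)

lemma hA_nonneg (x : Qb) : 0 ≤ hA x := by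
  classical
  obtain ⟨E, h1, h2, h3⟩ := exists_galois_subset {x}
  have := numberField_of_finiteDimensional E
  have h := logHeight₁_eq_hA E ⟨x, h3 x (by simp)⟩
  have h4 := Height.zero_le_logHeight₁ (⟨x, h3 x (by simp)⟩ : E)
  rw [h] at h4
  have h5 : (0 : ℝ) < Module.finrank ℚ E := by exact_mod_cast Module.finrank_pos
  exact nonneg_of_mul_nonneg_right h4 h5

end Formula

section Coprime

/-- the reflected polynomials are coprime -/
lemma isCoprime_reflect {P Q : Qb[X]} (h : IsCoprime P Q) {D : ℕ}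
    (hD : D = max P.natDegree Q.natDegree) : IsCoprime (reflect D P) (reflect D Q) := by
  have hP : P.natDegree ≤ D := hD ▸ le_max_left _ _
  have hQ : Q.natDegree ≤ D := hD ▸ le_max_right _ _
  rw [Polynomial.isCoprime_iff_aeval_ne_zero_of_isAlgClosed Qb Qb] at h ⊢
  intro a
  simp only [coe_aeval_eq_eval] at h ⊢
  have hev : ∀ A : Qb[X], A.natDegree ≤ D → (reflect D A).eval a = hom D A 1 a := by
    intro A hA
    have h1 : (reflect D A).natDegree ≤ D := natDegree_reflect_le.trans (max_le le_rfl hA)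
    have h2 := hom_of_ne_zero h1 a (one_ne_zero)
    rw [hom_reflect] at h2
    simpa using h2.symm
  rw [hev P hP, hev Q hQ]
  rcases eq_or_ne a 0 with rfl | ha
  · rw [hom_zero_right, hom_zero_right, one_pow, mul_one, mul_one]
    by_contra hcon
    push Not at hcon
    obtain ⟨h1, h2⟩ := hcon
    rcases le_total P.natDegree Q.natDegree with hle | hle
    · rw [max_eq_right hle] at hD
      rw [hD, coeff_natDegree, leadingCoeff_eq_zero] at h2
      rw [h2] at hD hle
      simp only [natDegree_zero] at hD hle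
      have hP0 : P.natDegree = 0 := by omega
      rw [hD, ← hP0, coeff_natDegree, leadingCoeff_eq_zero] at h1
      rcases h 0 with h3 | h3
      · exact h3 (by rw [h1]; simp)
      · exact h3 (by rw [h2]; simp)
    · rw [max_eq_left hle] at hD
      rw [hD, coeff_natDegree, leadingCoeff_eq_zero] at h1
      rw [h1] at hD hle
      simp only [natDegree_zero] at hD hle
      have hQ0 : Q.natDegree = 0 := by omega
      rw [hD, ← hQ0, coeff_natDegree, leadingCoeff_eq_zero] at h2
      rcases h 0 with h3 | h3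
      · exact h3 (by rw [h1]; simp)
      · exact h3 (by rw [h2]; simp)
  · rw [hom_of_ne_zero hP 1 ha, hom_of_ne_zero hQ 1 ha]
    have hpow : a ^ D ≠ 0 := pow_ne_zero _ ha
    rcases h (1 / a) with h3 | h3
    · left; exact mul_ne_zero hpow h3
    · right; exact mul_ne_zero hpow h3

end Coprime

section Key

/-- lift a polynomial to a subfield -/
lemma exists_lift (E : IntermediateField ℚ Qb) (A : Qb[X]) (h : ∀ i, A.coeff i ∈ E) :
    ∃ B : E[X], B.map (algebraMap E Qb) = A := by
  have : A ∈ Polynomial.lifts (algebraMap E Qb) := by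
    rw [Polynomial.lifts_iff_coeff_lifts]
    intro i
    exact ⟨⟨_, h i⟩, rfl⟩
  exact (Polynomial.mem_lifts A).mp this

lemma hom_map {E : IntermediateField ℚ Qb} (D : ℕ) (B : E[X]) (x y : E) :
    ((hom D B x y : E) : Qb) = hom D (B.map (algebraMap E Qb)) (x : Qb) (y : Qb) := by
  simp only [hom, coeff_map]
  push_cast
  rfl

lemma reflect_map' {E : IntermediateField ℚ Qb} (D : ℕ) (B : E[X]) :
    (reflect D B).map (algebraMap E Qb) = reflect D (B.map (algebraMap E Qb)) := by
  ext i
  simp [coeff_map, coeff_reflect]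

theorem hA_hom_ge {P Q : Qb[X]} (hPQ : IsCoprime P Q) {D : ℕ}
    (hD : D = max P.natDegree Q.natDegree) (hD1 : 1 ≤ D) :
    ∃ C : ℝ, 0 ≤ C ∧ ∀ x y : Qb, (x ≠ 0 ∨ y ≠ 0) →
      (hom D P x y ≠ 0 ∨ hom D Q x y ≠ 0) ∧
      D * hA (x / y) - C ≤ hA (hom D P x y / hom D Q x y) := by
  classical
  have hP : P.natDegree ≤ D := hD ▸ le_max_left _ _
  have hQ : Q.natDegree ≤ D := hD ▸ le_max_right _ _
  obtain ⟨U, V, hUV⟩ := hPQ
  obtain ⟨U', V', hUV'⟩ := isCoprime_reflect ⟨U, V, hUV⟩ hD
  set M := max (max U.natDegree V.natDegree) (max U'.natDegree V'.natDegree) with hM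
  have hUM : U.natDegree ≤ M := (le_max_left _ _).trans (le_max_left _ _)
  have hVM : V.natDegree ≤ M := (le_max_right _ _).trans (le_max_left _ _)
  have hU'M : U'.natDegree ≤ M := (le_max_left _ _).trans (le_max_right _ _)
  have hV'M : V'.natDegree ≤ M := (le_max_right _ _).trans (le_max_right _ _)
  set C : ℝ := Real.log (2 * (M + 1)) + ∑ T : Fin 2 × Fin 2, ∑ i ∈ Finset.range (M + 1),
        hA ((![![reflect M U', reflect M V'], ![U, V]] T.1 T.2).coeff i) with hC
  refine ⟨C, ?_, fun x y hxy => ⟨?_, ?_⟩⟩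
  · have h1 : 0 ≤ Real.log (2 * ((M : ℝ) + 1)) := Real.log_nonneg (by
      have : (0 : ℝ) ≤ M := Nat.cast_nonneg M
      linarith)
    have h2 : 0 ≤ ∑ T : Fin 2 × Fin 2, ∑ i ∈ Finset.range (M + 1),
        hA ((![![reflect M U', reflect M V'], ![U, V]] T.1 T.2).coeff i) :=
      Finset.sum_nonneg fun T _ => Finset.sum_nonneg fun i _ => hA_nonneg _
    linarith
  · by_contra hcon
    push Not at hcon
    obtain ⟨h1, h2⟩ := hcon
    have h3 := hom_bezout hP hQ hUM hVM hUV x y
    rw [h1, h2, mul_zero, mul_zero, add_zero] at h3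
    have hRP : (reflect D P).natDegree ≤ D := natDegree_reflect_le.trans (max_le le_rfl hP)
    have hRQ : (reflect D Q).natDegree ≤ D := natDegree_reflect_le.trans (max_le le_rfl hQ)
    have h4 := hom_bezout hRP hRQ hU'M hV'M hUV' y x
    rw [hom_reflect, hom_reflect, h1, h2, mul_zero, mul_zero, add_zero] at h4
    have hy : y = 0 := pow_eq_zero_iff (by omega) |>.mp h3.symm
    have hx : x = 0 := pow_eq_zero_iff (by omega) |>.mp h4.symm
    rcases hxy with h | h
    · exact h hx
    · exact h hy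
  · -- choose a Galois field containing everything
    let S : Finset Qb := {x, y} ∪ (P.coeffs ∪ Q.coeffs ∪ (U.coeffs ∪ V.coeffs) ∪
      (U'.coeffs ∪ V'.coeffs))
    obtain ⟨E, hE1, hE2, hE3⟩ := exists_galois_subset S
    have := numberField_of_finiteDimensional E
    have hcoef : ∀ A : Qb[X], A.coeffs ⊆ S → ∀ i, A.coeff i ∈ E := by
      intro A hA i
      by_cases h0 : A.coeff i = 0
      · rw [h0]; exact zero_mem E
      · exact hE3 _ (hA (Polynomial.coeff_mem_coeffs h0))
    obtain ⟨P₁, hP₁⟩ := exists_lift E P (hcoef P (by intro a ha; simp [S, ha]))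
    obtain ⟨Q₁, hQ₁⟩ := exists_lift E Q (hcoef Q (by intro a ha; simp [S, ha]))
    obtain ⟨U₁, hU₁⟩ := exists_lift E U (hcoef U (by intro a ha; simp [S, ha]))
    obtain ⟨V₁, hV₁⟩ := exists_lift E V (hcoef V (by intro a ha; simp [S, ha]))
    obtain ⟨U₂, hU₂⟩ := exists_lift E U' (hcoef U' (by intro a ha; simp [S, ha]))
    obtain ⟨V₂, hV₂⟩ := exists_lift E V' (hcoef V' (by intro a ha; simp [S, ha]))
    have hxE : x ∈ E := hE3 x (by simp [S])
    have hyE : y ∈ E := hE3 y (by simp [S])
    have hinj : Function.Injective (Polynomial.map (algebraMap E Qb)) :=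
      Polynomial.map_injective _ (algebraMap E Qb).injective
    have hdeg : ∀ (A : Qb[X]) (B : E[X]), B.map (algebraMap E Qb) = A →
        B.natDegree = A.natDegree := by
      intro A B h
      rw [← h, natDegree_map]
    have hbez : U₁ * P₁ + V₁ * Q₁ = 1 := by
      apply hinj
      simp only [Polynomial.map_add, Polynomial.map_mul, Polynomial.map_one, hP₁, hQ₁, hU₁, hV₁]
      exact hUV
    have hbez' : U₂ * reflect D P₁ + V₂ * reflect D Q₁ = 1 := by
      apply hinj
      simp only [Polynomial.map_add, Polynomial.map_mul, Polynomial.map_one, reflect_map',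
        hP₁, hQ₁, hU₂, hV₂]
      exact hUV'
    have key := logHeight_hom_ge (K := E) (D := D) (M := M) (by rw [hdeg _ _ hP₁]; exact hP)
      (by rw [hdeg _ _ hQ₁]; exact hQ) (by rw [hdeg _ _ hU₁]; exact hUM)
      (by rw [hdeg _ _ hV₁]; exact hVM) (by rw [hdeg _ _ hU₂]; exact hU'M)
      (by rw [hdeg _ _ hV₂]; exact hV'M) hbez hbez' ⟨x, hxE⟩ ⟨y, hyE⟩
    rw [← Height.logHeight₁_div_eq_logHeight, ← Height.logHeight₁_div_eq_logHeight] at key
    simp_rw [logHeight₁_eq_hA] at key
    rw [totalWeight_eq_finrank] at key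
    set n : ℝ := (Module.finrank ℚ E : ℝ) with hn
    have hnpos : 0 < n := by rw [hn]; exact_mod_cast Module.finrank_pos
    have hsum : ∑ T : Fin 2 × Fin 2, ∑ i ∈ Finset.range (M + 1),
        n * hA (((![![reflect M U₂, reflect M V₂], ![U₁, V₁]] T.1 T.2).coeff i : E) : Qb) =
        n * ∑ T : Fin 2 × Fin 2, ∑ i ∈ Finset.range (M + 1),
        hA ((![![reflect M U', reflect M V'], ![U, V]] T.1 T.2).coeff i) := by
      rw [Finset.mul_sum]
      refine Finset.sum_congr rfl fun T _ => ?_
      rw [Finset.mul_sum]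
      refine Finset.sum_congr rfl fun i _ => ?_
      congr 2
      have : (![![reflect M U₂, reflect M V₂], ![U₁, V₁]] T.1 T.2).map (algebraMap E Qb)
          = ![![reflect M U', reflect M V'], ![U, V]] T.1 T.2 := by
        obtain ⟨a, b⟩ := T
        fin_cases a <;> fin_cases b <;> simp [reflect_map', hU₂, hV₂, hU₁, hV₁]
      rw [← this, coeff_map]
      rfl
    rw [hsum] at key
    have e1 : (((⟨x, hxE⟩ : E) / (⟨y, hyE⟩ : E) : E) : Qb) = x / y := rfl
    have e2 : (((hom D P₁ ⟨x, hxE⟩ ⟨y, hyE⟩ : E) / (hom D Q₁ ⟨x, hxE⟩ ⟨y, hyE⟩ : E) : E) : Qb)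
        = hom D P x y / hom D Q x y := by
      rw [← hP₁, ← hQ₁]
      have := hom_map D P₁ ⟨x, hxE⟩ ⟨y, hyE⟩
      have := hom_map D Q₁ ⟨x, hxE⟩ ⟨y, hyE⟩
      push_cast
      simp_all
    rw [e1, e2] at key
    have : n * (D * hA (x / y) - C) ≤ n * hA (hom D P x y / hom D Q x y) := by
      rw [hC]; nlinarith [key]
    exact le_of_mul_le_mul_left this hnpos

end Key

section Iterate

/-- The map on homogeneous coordinates induced by a rational function. -/
noncomputable def Phi (f : RatFunc Qb) (z : Qb × Qb) : Qb × Qb :=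
  (hom (max f.num.natDegree f.denom.natDegree) f.num z.1 z.2,
   hom (max f.num.natDegree f.denom.natDegree) f.denom z.1 z.2)

/-- The Northcott property implies the universal strong Bogomolov property. -/
theorem usb_of_northcott (F : Set Qb) (hN : ∀ B : ℝ, {α : Qb | α ∈ F ∧ hA α ≤ B}.Finite)
    (f : RatFunc Qb) (hf : 2 ≤ max f.num.natDegree f.denom.natDegree) :
    ∃ c : ℝ, 0 < c ∧ Set.Finite {α : Qb | α ∈ F ∧ ∃ L : ℝ,
      Filter.Tendsto (fun n : ℕ => hA (((Phi f)^[n] (α, 1)).1 / ((Phi f)^[n] (α, 1)).2) /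
        ((max f.num.natDegree f.denom.natDegree : ℕ) : ℝ) ^ n) Filter.atTop (nhds L) ∧ L < c} := by
  set D := max f.num.natDegree f.denom.natDegree with hD
  obtain ⟨C, hC0, hC⟩ := hA_hom_ge (RatFunc.isCoprime_num_denom f) hD (by omega)
  refine ⟨1, one_pos, (hN (C + 1)).subset ?_⟩
  rintro α ⟨hαF, L, hL, hL1⟩
  refine ⟨hαF, ?_⟩
  have hDpos : (0 : ℝ) < D := by
    have : 0 < D := by omega
    exact_mod_cast this
  have hD2 : (2 : ℝ) ≤ D := by exact_mod_cast hf
  have hne : ∀ n : ℕ, (((Phi f)^[n] (α, 1)).1 ≠ 0 ∨ ((Phi f)^[n] (α, 1)).2 ≠ 0) := by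
    intro n
    induction n with
    | zero => right; simp
    | succ n ih =>
      rw [Function.iterate_succ_apply']
      exact (hC _ _ ih).1
  have hstep : ∀ n : ℕ, (D : ℝ) ^ n * (hA α - C) ≤
      hA (((Phi f)^[n] (α, 1)).1 / ((Phi f)^[n] (α, 1)).2) - C := by
    intro n
    induction n with
    | zero => simp
    | succ n ih =>
      have h1 := (hC _ _ (hne n)).2
      rw [Function.iterate_succ_apply']
      have h2 : (D : ℝ) ^ (n + 1) * (hA α - C) ≤
          D * (hA (((Phi f)^[n] (α, 1)).1 / ((Phi f)^[n] (α, 1)).2) - C) := by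
        rw [pow_succ, mul_comm ((D : ℝ) ^ n) (D : ℝ), mul_assoc]
        exact mul_le_mul_of_nonneg_left ih hDpos.le
      have h3 : Phi f ((Phi f)^[n] (α, 1)) =
        (hom D f.num ((Phi f)^[n] (α, 1)).1 ((Phi f)^[n] (α, 1)).2,
         hom D f.denom ((Phi f)^[n] (α, 1)).1 ((Phi f)^[n] (α, 1)).2) := rfl
      rw [h3]
      have h4 : (D : ℝ) * C ≥ 2 * C := by nlinarith
      simp only
      linarith
  have hge : hA α - C ≤ L := by
    refine ge_of_tendsto' hL fun n => ?_
    rw [le_div_iff₀ (pow_pos hDpos n)]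
    have := hstep n
    rw [mul_comm]
    linarith
  linarith

end Iterate

end Pool.Agent.Lib.MP_19fd7d_nt
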