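import Mathlib
import Pool.Agent.Lib.MP_19fd7d_nt.USB

/-!
# Heights in extensions, and the absolute height of Mathlib

For number fields `K ⊆ E` the height over `E` of an element of `K` is the `[E:K]`-th power of its
height over `K`.  Consequently `NumberField.absLogHeight₁` is `hA` on the algebraic numbers.
-/

set_option autoImplicit false

open Polynomial NumberField

namespace Pool.Agent.Lib.MP_19fd7d_nt

section Ext

variable {K : Type*} [Field K] [NumberField K] {E : Type*} [Field E] [NumberField E] [Algebra K E]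

lemma absNorm_mul_finH {K : Type*} [Field K] [NumberField K] (y : K) (n : ℕ) (hn : n ≠ 0) (b : 𝓞 K)
    (hb : n * y = b) :
    (Ideal.span {b, (n : 𝓞 K)}).absNorm * finH y = (n : ℝ) ^ Module.finrank ℚ K := by
  have hn' : (n : K) ≠ 0 := by exact_mod_cast hn
  have h1 := absNorm_mul_finprod_finitePlace_eq_one (K := K) (x := ![b, (n : 𝓞 K)]) (by
    intro h
    have := congrFun h 1
    simp at this
    exact hn this)
  have h2 : ∀ v : FinitePlace K, ⨆ i, v ((![b, (n : 𝓞 K)] i : 𝓞 K) : K)
      = v (n : K) * max (v y) 1 := by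
    intro v
    have h3 : v (b : K) = v (n : K) * v y := by rw [← hb, map_mul]
    rw [mul_max_of_nonneg _ _ (apply_nonneg v _), mul_one, ← h3, iSup_fin_two]
    simp
  simp_rw [h2] at h1
  rw [finprod_mul_distrib (FinitePlace.hasFiniteMulSupport hn') (hasFiniteMulSupport_max y)] at h1
  have h4 := finprod_natCast_inv (E := K) (Nat.pos_of_ne_zero hn)
  rw [finprod_inv_distrib] at h4
  have h5 : Set.range ![b, (n : 𝓞 K)] = {b, (n : 𝓞 K)} := by
    simp [Set.pair_comm]
  rw [h5] at h1
  have h6 : (∏ᶠ v : FinitePlace K, v (n : K)) ≠ 0 := by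
    intro h
    rw [h] at h4
    simp at h4
    have := pow_ne_zero (Module.finrank ℚ K) (Nat.cast_ne_zero (R := ℝ).mpr hn)
    exact this h4.symm
  rw [← h4]
  refine eq_inv_of_mul_eq_one_right ?_
  rw [← h1, finH]
  ring

lemma finH_algebraMap (x : K) : finH (algebraMap K E x) = finH x ^ Module.finrank K E := by
  obtain ⟨n, hn, a, ha, -⟩ := exists_nat_ne_zero_exists_integer_mul_eq_and_absNorm_span_eq_pow x
  have h1 := absNorm_mul_finH x n hn a ha
  have h2 := absNorm_mul_finH (algebraMap K E x) n hn (algebraMap (𝓞 K) (𝓞 E) a) (by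
    rw [← map_natCast (algebraMap K E), ← map_mul, ha]
    rfl)
  have h3 : Ideal.span {algebraMap (𝓞 K) (𝓞 E) a, (n : 𝓞 E)} =
      (Ideal.span {a, (n : 𝓞 K)}).map (algebraMap (𝓞 K) (𝓞 E)) := by
    rw [Ideal.map_span, Set.image_pair, map_natCast]
  rw [h3, Ideal.absNorm_algebraMap, ← IsFractionRing.finrank_eq (𝓞 K) K (𝓞 E) E] at h2
  have h4 : Module.finrank ℚ E = Module.finrank ℚ K * Module.finrank K E :=
    (Module.finrank_mul_finrank ℚ K E).symm
  rw [h4, pow_mul, ← h1, mul_pow] at h2
  push_cast at h2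
  have h5 : (((Ideal.span {a, (n : 𝓞 K)}).absNorm : ℝ)) ≠ 0 := by
    intro h
    rw [h, zero_mul] at h1
    exact pow_ne_zero (Module.finrank ℚ K) (Nat.cast_ne_zero (R := ℝ).mpr hn) h1.symm
  exact mul_left_cancel₀ (pow_ne_zero _ h5) h2

lemma card_ext (ψ : K →+* ℂ) :
    Nat.card {φ : E →+* ℂ // φ.comp (algebraMap K E) = ψ} = Module.finrank K E := by
  let : Algebra K ℂ := ψ.toAlgebra
  have : FiniteDimensional K E := Module.Finite.of_restrictScalars_finite ℚ K E
  have h1 : Fintype.card (E →ₐ[K] ℂ) = Module.finrank K E := AlgHom.card K E ℂ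
  rw [← h1, ← Nat.card_eq_fintype_card]
  refine Nat.card_congr ⟨fun φ => ⟨φ.1, fun x => RingHom.congr_fun φ.2 x⟩,
    fun φ => ⟨φ.toRingHom, RingHom.ext fun x => φ.commutes x⟩, fun φ => rfl, fun φ => rfl⟩

lemma arch_algebraMap (x : K) :
    ∏ v : InfinitePlace E, max (v (algebraMap K E x)) 1 ^ v.mult =
      (∏ v : InfinitePlace K, max (v x) 1 ^ v.mult) ^ Module.finrank K E := by
  classical
  rw [prod_infinitePlace_eq_prod_embeddings, prod_infinitePlace_eq_prod_embeddings]
  rw [← Finset.prod_fiberwise Finset.univ (fun φ : E →+* ℂ => φ.comp (algebraMap K E))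
    (fun φ : E →+* ℂ => max 1 ‖φ (algebraMap K E x)‖), ← Finset.prod_pow]
  refine Finset.prod_congr rfl fun ψ _ => ?_
  have h1 : ∀ φ ∈ (Finset.univ.filter fun φ : E →+* ℂ => φ.comp (algebraMap K E) = ψ),
      max 1 ‖φ (algebraMap K E x)‖ = max 1 ‖ψ x‖ := by
    intro φ hφ
    rw [← (Finset.mem_filter.mp hφ).2]
    rfl
  rw [Finset.prod_congr rfl h1, Finset.prod_const, ← card_ext ψ, Nat.card_eq_fintype_card,
    Fintype.card_subtype]

/-- The height over a bigger field. -/
theorem mulHeight₁_algebraMap (x : K) :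
    Height.mulHeight₁ (algebraMap K E x) = Height.mulHeight₁ x ^ Module.finrank K E := by
  rw [NumberField.mulHeight₁_eq, NumberField.mulHeight₁_eq, mul_pow, arch_algebraMap]
  congr 1
  exact finH_algebraMap x

end Ext

/-- The absolute height of Mathlib, computed in any finite Galois extension. -/
theorem absLogHeight₁_eq (x : Qb) : absLogHeight₁ x = hA x := by
  have hx : IsIntegral ℚ x := Algebra.IsIntegral.isIntegral x
  obtain ⟨E, hE1, hE2, hE3⟩ := exists_galois_subset {x}
  have := numberField_of_finiteDimensional E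
  have : FiniteDimensional ℚ (IntermediateField.adjoin ℚ {x}) :=
    IntermediateField.adjoin.finiteDimensional hx
  have : NumberField (IntermediateField.adjoin ℚ {x}) := numberField_of_finiteDimensional _
  have hle : IntermediateField.adjoin ℚ {x} ≤ E := by
    rw [IntermediateField.adjoin_simple_le_iff]
    exact hE3 x (by simp)
  let : Algebra (IntermediateField.adjoin ℚ {x}) E :=
    (IntermediateField.inclusion hle).toRingHom.toAlgebra
  have h1 := mulHeight₁_algebraMap (E := E) (IntermediateField.AdjoinSimple.gen ℚ x)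
  have h2 : (algebraMap (IntermediateField.adjoin ℚ {x}) E (IntermediateField.AdjoinSimple.gen ℚ x))
      = ⟨x, hE3 x (by simp)⟩ := rfl
  rw [h2] at h1
  have h3 := logHeight₁_eq_hA E ⟨x, hE3 x (by simp)⟩
  rw [Height.logHeight₁_eq_log_mulHeight₁, h1, Real.log_pow] at h3
  have h4 : Module.finrank ℚ E = Module.finrank ℚ (IntermediateField.adjoin ℚ {x}) *
      Module.finrank (IntermediateField.adjoin ℚ {x}) E :=
    (Module.finrank_mul_finrank ℚ _ E).symm
  rw [h4] at h3
  have h5 : (0 : ℝ) < Module.finrank ℚ (IntermediateField.adjoin ℚ {x}) := by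
    exact_mod_cast Module.finrank_pos
  have : FiniteDimensional (IntermediateField.adjoin ℚ {x}) E :=
    Module.Finite.of_restrictScalars_finite ℚ _ E
  have h6 : (0 : ℝ) < Module.finrank (IntermediateField.adjoin ℚ {x}) E := by
    exact_mod_cast Module.finrank_pos
  rw [absLogHeight₁, absMulHeight₁, dif_pos hx, Real.log_rpow (Height.mulHeight₁_pos _)]
  push_cast at h3
  field_simp
  have h7 : (Module.finrank (IntermediateField.adjoin ℚ {x}) E : ℝ) *
      (Real.log (Height.mulHeight₁ (IntermediateField.AdjoinSimple.gen ℚ x)) -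
      Module.finrank ℚ (IntermediateField.adjoin ℚ {x}) * hA x) = 0 := by
    linarith
  have h8 := (mul_eq_zero.mp h7).resolve_left h6.ne'
  linarith

end Pool.Agent.Lib.MP_19fd7d_nt
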