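import Mathlib
import Pool.Agent.Lib.MP_19fd7d_nt.USB

/-!
# Canonical heights of rational maps on the projective line
-/

set_option autoImplicit false

open Polynomial NumberField Height Height.AdmissibleAbsValues

namespace Pool.Agent.Lib.MP_19fd7d_nt

section Upper

variable {K : Type*} [Field K] [AdmissibleAbsValues K]

/-- Upper bound for the height of the image of a point under a map of degree `D`. -/
theorem logHeight_hom_le {D : ℕ} (P Q : K[X]) (x y : K) :
    logHeight ![hom D P x y, hom D Q x y] ≤ D * logHeight ![x, y] +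
      (totalWeight K * Real.log (D + 1) +
      ∑ T : Fin 2, ∑ i ∈ Finset.range (D + 1), logHeight₁ ((![P, Q] T).coeff i)) := by
  set p : Fin 2 → MvPolynomial (Fin 2) K := fun a => homP D (![P, Q] a) with hp
  have key := logHeight_eval_le (K := K) (ι := Fin 2) (ι' := Fin 2) (N := D) (p := p)
    (fun a => homP_isHomogeneous D _) ![x, y]
  have himg : (fun j => MvPolynomial.eval ![x, y] (p j)) = ![hom D P x y, hom D Q x y] := by
    funext j
    fin_cases j <;> simp [eval_homP, hp]
  rw [himg] at key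
  have hB := mulHeightBound_le p (fun a : Fin 2 × Fin (D + 1) => (![P, Q] a.1).coeff a.2)
    (D + 1) (by omega) (by
      intro a s
      rcases homP_coeff D (![P, Q] a) s with h | ⟨i, h⟩
      · exact Or.inl h
      · exact Or.inr ⟨(a, i), h⟩) (fun a => homP_support_card D _)
  set PP : ℝ := ∏ a : Fin 2 × Fin (D + 1), mulHeight₁ ((![P, Q] a.1).coeff a.2) with hPP
  have hPP1 : 1 ≤ PP := Finset.one_le_prod fun a _ => one_le_mulHeight₁ _
  have hmax : max (mulHeightBound p) 1 ≤ ((D + 1 : ℕ) : ℝ) ^ totalWeight K * PP := by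
    refine max_le hB ?_
    have : (1 : ℝ) ≤ ((D + 1 : ℕ) : ℝ) ^ totalWeight K := one_le_pow₀ (by
      push_cast; linarith [(Nat.cast_nonneg D : (0 : ℝ) ≤ D)])
    calc (1 : ℝ) = 1 * 1 := (one_mul 1).symm
      _ ≤ _ := by gcongr
  have hlog : Real.log (max (mulHeightBound p) 1) ≤
      totalWeight K * Real.log (D + 1) + Real.log PP := by
    have hpos : (0 : ℝ) < max (mulHeightBound p) 1 := lt_of_lt_of_le one_pos (le_max_right _ _)
    calc Real.log (max (mulHeightBound p) 1)
        ≤ Real.log (((D + 1 : ℝ)) ^ totalWeight K * PP) := by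
          apply Real.log_le_log hpos
          push_cast at hmax
          exact hmax
      _ = _ := by
          rw [Real.log_mul (by positivity) (by positivity), Real.log_pow]
  have hPPlog : Real.log PP = ∑ T' : Fin 2, ∑ i ∈ Finset.range (D + 1),
        logHeight₁ ((![P, Q] T').coeff i) := by
    rw [hPP, Real.log_prod (fun a _ => mulHeight₁_ne_zero _), Fintype.sum_prod_type]
    refine Finset.sum_congr rfl fun T' _ => ?_
    rw [Finset.sum_range]
    rfl
  rw [hPPlog] at hlog
  linarith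

end Upper

theorem hA_hom_le (P Q : Qb[X]) (D : ℕ) :
    ∃ C : ℝ, 0 ≤ C ∧ ∀ x y : Qb, hA (hom D P x y / hom D Q x y) ≤ D * hA (x / y) + C := by
  classical
  set C : ℝ := Real.log (D + 1) + ∑ T : Fin 2, ∑ i ∈ Finset.range (D + 1),
        hA ((![P, Q] T).coeff i) with hC
  refine ⟨C, ?_, fun x y => ?_⟩
  · have h1 : 0 ≤ Real.log ((D : ℝ) + 1) := Real.log_nonneg (by
      have : (0 : ℝ) ≤ D := Nat.cast_nonneg D
      linarith)
    have h2 : 0 ≤ ∑ T : Fin 2, ∑ i ∈ Finset.range (D + 1),
        hA ((![P, Q] T).coeff i) :=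
      Finset.sum_nonneg fun T _ => Finset.sum_nonneg fun i _ => hA_nonneg _
    linarith
  · let S : Finset Qb := {x, y} ∪ (P.coeffs ∪ Q.coeffs)
    obtain ⟨E, hE1, hE2, hE3⟩ := exists_galois_subset S
    have := numberField_of_finiteDimensional E
    have hcoef : ∀ A : Qb[X], A.coeffs ⊆ S → ∀ i, A.coeff i ∈ E := by
      intro A hA i
      by_cases h0 : A.coeff i = 0
      · rw [h0]; exact zero_mem E
      · exact hE3 _ (hA (Polynomial.coeff_mem_coeffs h0))
    obtain ⟨P₁, hP₁⟩ := exists_lift E P (hcoef P (by intro a ha; simp [S, ha]))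
    obtain ⟨Q₁, hQ₁⟩ := exists_lift E Q (hcoef Q (by intro a ha; simp [S, ha]))
    have hxE : x ∈ E := hE3 x (by simp [S])
    have hyE : y ∈ E := hE3 y (by simp [S])
    have key := logHeight_hom_le (K := E) (D := D) P₁ Q₁ ⟨x, hxE⟩ ⟨y, hyE⟩
    rw [← Height.logHeight₁_div_eq_logHeight, ← Height.logHeight₁_div_eq_logHeight] at key
    simp_rw [logHeight₁_eq_hA] at key
    rw [totalWeight_eq_finrank] at key
    set n : ℝ := (Module.finrank ℚ E : ℝ) with hn
    have hnpos : 0 < n := by rw [hn]; exact_mod_cast Module.finrank_pos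
    have hsum : ∑ T : Fin 2, ∑ i ∈ Finset.range (D + 1), n * hA (((![P₁, Q₁] T).coeff i : E) : Qb) =
        n * ∑ T : Fin 2, ∑ i ∈ Finset.range (D + 1), hA ((![P, Q] T).coeff i) := by
      rw [Finset.mul_sum]
      refine Finset.sum_congr rfl fun T _ => ?_
      rw [Finset.mul_sum]
      refine Finset.sum_congr rfl fun i _ => ?_
      congr 2
      have : (![P₁, Q₁] T).map (algebraMap E Qb) = ![P, Q] T := by
        fin_cases T <;> simp [hP₁, hQ₁]
      rw [← this, coeff_map]
      rfl
    rw [hsum] at key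
    have e1 : (((⟨x, hxE⟩ : E) / (⟨y, hyE⟩ : E) : E) : Qb) = x / y := rfl
    have e2 : (((hom D P₁ ⟨x, hxE⟩ ⟨y, hyE⟩ : E) / (hom D Q₁ ⟨x, hxE⟩ ⟨y, hyE⟩ : E) : E) : Qb)
        = hom D P x y / hom D Q x y := by
      rw [← hP₁, ← hQ₁]
      have := hom_map D P₁ ⟨x, hxE⟩ ⟨y, hyE⟩
      have := hom_map D Q₁ ⟨x, hxE⟩ ⟨y, hyE⟩
      push_cast
      simp_all
    rw [e1, e2] at key
    have : n * hA (hom D P x y / hom D Q x y) ≤ n * (D * hA (x / y) + C) := by
      rw [hC]; nlinarith [key]
    exact le_of_mul_le_mul_left this hnpos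

end Pool.Agent.Lib.MP_19fd7d_nt
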