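import Mathlib
import Pool.Agent.Lib.MP_19fd7d_nt.Heights

/-!
# A lower bound for heights coming from ramification in cyclotomic fields
-/

set_option autoImplicit false
set_option linter.unusedSectionVars false

open NumberField IsDedekindDomain

namespace Pool.Agent.Lib.MP_19fd7d_nt


lemma le_exp_neg_one_of_lt_one {a : WithZero (Multiplicative ℤ)} (h : a < 1) :
    a ≤ WithZero.exp (-1 : ℤ) := by
  rcases eq_or_ne a 0 with rfl | ha
  · exact zero_le
  · rw [← WithZero.exp_log ha] at h ⊢
    rw [← WithZero.exp_zero, WithZero.exp_lt_exp] at h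
    rw [WithZero.exp_le_exp]
    omega

section Unram

variable {C' : Type*} [Field C'] [NumberField C'] (m' q : ℕ) [NeZero m'] [hqp : Fact q.Prime]
  [IsCyclotomicExtension {m'} ℚ C']

include m' in
lemma intValuation_q (hq : ¬ q ∣ m') (w : HeightOneSpectrum (𝓞 C')) (hw : (q : 𝓞 C') ∈ w.asIdeal) :
    w.intValuation (q : 𝓞 C') = WithZero.exp (-1 : ℤ) := by
  have hq0 : (q : 𝓞 C') ≠ 0 := by exact_mod_cast hqp.out.ne_zero
  have hw1 : w.asIdeal.IsPrime := w.isPrime
  have : w.asIdeal.LiesOver (Ideal.span {(q : ℤ)}) := by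
    rw [Ideal.liesOver_span_iff hw1.ne_top (Nat.prime_iff_prime_int.mp hqp.out)]
    simpa using hw
  have h1 := IsCyclotomicExtension.Rat.ramificationIdx_eq_of_not_dvd q C' w.asIdeal hq
  have hmap : (Ideal.span {(q : ℤ)}).map (algebraMap ℤ (𝓞 C')) = Ideal.span {(q : 𝓞 C')} := by
    rw [Ideal.map_span, Set.image_singleton]; simp
  have h2 := Ideal.IsDedekindDomain.ramificationIdx_eq_multiplicity (Ideal.span {(q : ℤ)}) w.asIdeal
    (by rw [hmap]; simpa using hq0)
  rw [h1, hmap] at h2
  rw [w.intValuation_eq_exp_neg_multiplicity hq0, ← h2]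
  simp

variable {C : Type*} [Field C] [NumberField C] [Algebra C' C]

include m' in
/-- If `q` is unramified in `C'` then for `y ∈ C'` of valuation `< 1` at a prime of `C` over `q`,
the valuation of `y` is at most that of `q`. -/
lemma valuation_le_of_lt_one (hq : ¬ q ∣ m') (v : HeightOneSpectrum (𝓞 C))
    (hv : (q : 𝓞 C) ∈ v.asIdeal) (y : C') (hy : v.valuation C (algebraMap C' C y) < 1) :
    v.valuation C (algebraMap C' C y) ≤ v.valuation C (q : C) := by
  have hv1 : v.asIdeal.IsPrime := v.isPrime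
  let P : Ideal (𝓞 C') := v.asIdeal.under (𝓞 C')
  have hqP : (q : 𝓞 C') ∈ P := by
    rw [Ideal.mem_under]
    simpa using hv
  have hP0 : P ≠ ⊥ := by
    intro h
    rw [h, Ideal.mem_bot] at hqP
    exact hqp.out.ne_zero (by exact_mod_cast hqP)
  let w : HeightOneSpectrum (𝓞 C') := ⟨P, inferInstance, hP0⟩
  have : v.asIdeal.LiesOver w.asIdeal := ⟨rfl⟩
  have hval := fun x : C' => HeightOneSpectrum.valuation_liesOver (K := C') C w v x
  have hw1 : w.valuation C' y < 1 := by
    by_contra hcon
    push Not at hcon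
    rw [← hval] at hy
    exact absurd hy (not_lt.mpr (one_le_pow₀ hcon))
  have hwq : w.valuation C' (q : C') = WithZero.exp (-1 : ℤ) := by
    have h1 := intValuation_q m' q hq w hqP
    have h2 := w.valuation_of_algebraMap (K := C') (q : 𝓞 C')
    rw [h1] at h2
    simpa using h2
  have h3 : w.valuation C' y ≤ w.valuation C' (q : C') := by
    rw [hwq]
    exact le_exp_neg_one_of_lt_one hw1
  have h4 : algebraMap C' C (q : C') = (q : C) := by simp
  rw [← h4, ← hval, ← hval]
  gcongr

end Unram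

section Inertia

variable {C : Type*} [Field C] [NumberField C] {C' : Type*} [Field C'] [NumberField C']
  [Algebra C' C] (m' q : ℕ) [NeZero m'] [hqp : Fact q.Prime]
  [IsCyclotomicExtension {m'} ℚ C'] [IsCyclotomicExtension {m' * q} ℚ C]

/-- The action of an automorphism on the ring of integers. -/
noncomputable def gO (g : Gal(C/ℚ)) : 𝓞 C ≃+* 𝓞 C := RingOfIntegers.mapRingEquiv (g : C ≃+* C)

lemma gO_apply (g : Gal(C/ℚ)) (z : 𝓞 C) : ((gO g z : 𝓞 C) : C) = g (z : C) := rfl

include m' in
lemma gO_sub_mem {g : Gal(C/ℚ)} (hg : ∀ y : C', g (algebraMap C' C y) = algebraMap C' C y)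
    (v : HeightOneSpectrum (𝓞 C)) (hv : (q : 𝓞 C) ∈ v.asIdeal) (z : 𝓞 C) :
    gO g z - z ∈ v.asIdeal := by
  have hv1 : v.asIdeal.IsPrime := v.isPrime
  have : NeZero (m' * q) := ⟨Nat.mul_ne_zero (NeZero.ne m') hqp.out.ne_zero⟩
  have hζ := IsCyclotomicExtension.zeta_spec (m' * q) ℚ C
  have htop := IsCyclotomicExtension.Rat.adjoin_singleton_eq_top hζ
  have hz : z ∈ Algebra.adjoin ℤ {hζ.toInteger} := by rw [htop]; exact Algebra.mem_top
  induction hz using Algebra.adjoin_induction with
  | mem x hx =>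
    rw [Set.mem_singleton_iff] at hx
    subst hx
    -- `ζ ^ q` lies in `C'`
    have hξ := IsCyclotomicExtension.zeta_spec m' ℚ C'
    have hξ' : IsPrimitiveRoot (algebraMap C' C (IsCyclotomicExtension.zeta m' ℚ C')) m' :=
      hξ.map_of_injective (algebraMap C' C).injective
    have h1 : (IsCyclotomicExtension.zeta (m' * q) ℚ C ^ q) ^ m' = 1 := by
      rw [← pow_mul, mul_comm q m']; exact hζ.pow_eq_one
    obtain ⟨b, -, hb⟩ := hξ'.eq_pow_of_pow_eq_one h1
    have h2 : g (IsCyclotomicExtension.zeta (m' * q) ℚ C ^ q)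
        = IsCyclotomicExtension.zeta (m' * q) ℚ C ^ q := by
      rw [← hb, ← map_pow, hg]
    have h3 : (gO g hζ.toInteger) ^ q = hζ.toInteger ^ q := by
      apply RingOfIntegers.ext
      rw [map_pow] at h2
      exact h2
    have hchar : CharP (𝓞 C ⧸ v.asIdeal) q := by
      rw [CharP.charP_iff_prime_eq_zero hqp.out]
      rw [← map_natCast (Ideal.Quotient.mk v.asIdeal), Ideal.Quotient.eq_zero_iff_mem]
      exact hv
    have h4 : (Ideal.Quotient.mk v.asIdeal (gO g hζ.toInteger) -
        Ideal.Quotient.mk v.asIdeal hζ.toInteger) ^ q = 0 := by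
      have h3' := congrArg (Ideal.Quotient.mk v.asIdeal) h3
      rw [map_pow (Ideal.Quotient.mk v.asIdeal), map_pow (Ideal.Quotient.mk v.asIdeal)] at h3'
      rw [sub_pow_char, h3', sub_self]
    have h5 := pow_eq_zero_iff (hqp.out.ne_zero) |>.mp h4
    rw [← map_sub, Ideal.Quotient.eq_zero_iff_mem] at h5
    exact h5
  | algebraMap r =>
    have : gO g (algebraMap ℤ (𝓞 C) r) = algebraMap ℤ (𝓞 C) r := by simp
    rw [this, sub_self]
    exact zero_mem _
  | add x y _ _ hx hy =>
    rw [map_add, add_sub_add_comm]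
    exact add_mem hx hy
  | mul x y _ _ hx hy =>
    rw [map_mul]
    have : gO g x * gO g y - x * y = (gO g x - x) * gO g y + x * (gO g y - y) := by ring
    rw [this]
    exact add_mem (Ideal.mul_mem_right _ _ hx) (Ideal.mul_mem_left _ _ hy)

lemma fix_inv {g : Gal(C/ℚ)} (hg : ∀ y : C', g (algebraMap C' C y) = algebraMap C' C y) :
    ∀ y : C', g⁻¹ (algebraMap C' C y) = algebraMap C' C y := by
  intro y
  conv_lhs => rw [← hg y]
  exact g.symm_apply_apply _

include m' in
lemma intValuation_gO_le {g : Gal(C/ℚ)} (hg : ∀ y : C', g (algebraMap C' C y) = algebraMap C' C y)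
    (v : HeightOneSpectrum (𝓞 C)) (hv : (q : 𝓞 C) ∈ v.asIdeal) (z : 𝓞 C) :
    v.intValuation (gO g z) ≤ v.intValuation z := by
  rcases eq_or_ne z 0 with rfl | hz
  · simp
  · have hmap : Ideal.map (gO g) v.asIdeal ≤ v.asIdeal := by
      rw [Ideal.map_le_iff_le_comap]
      intro x hx
      rw [Ideal.mem_comap]
      have := add_mem (gO_sub_mem m' q hg v hv x) hx
      simpa using this
    have h1 := v.intValuation_eq_exp_neg_multiplicity hz
    have h2 : z ∈ v.asIdeal ^ (multiplicity v.asIdeal (Ideal.span {z})) := by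
      rw [← v.intValuation_le_pow_iff_mem, h1]
    have h3 : gO g z ∈ v.asIdeal ^ (multiplicity v.asIdeal (Ideal.span {z})) := by
      have h4 := Ideal.mem_map_of_mem (gO g) h2
      rw [Ideal.map_pow] at h4
      exact Ideal.pow_right_mono hmap _ h4
    rw [h1, v.intValuation_le_pow_iff_mem]
    exact h3

include m' in
lemma intValuation_gO {g : Gal(C/ℚ)} (hg : ∀ y : C', g (algebraMap C' C y) = algebraMap C' C y)
    (v : HeightOneSpectrum (𝓞 C)) (hv : (q : 𝓞 C) ∈ v.asIdeal) (z : 𝓞 C) :
    v.intValuation (gO g z) = v.intValuation z := by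
  apply le_antisymm (intValuation_gO_le m' q hg v hv z)
  have h1 := intValuation_gO_le m' q (fix_inv hg) v hv (gO g z)
  have h2 : gO g⁻¹ (gO g z) = z := by
    apply RingOfIntegers.ext
    exact g.symm_apply_apply _
  rwa [h2] at h1

include m' in
lemma valuation_gal {g : Gal(C/ℚ)} (hg : ∀ y : C', g (algebraMap C' C y) = algebraMap C' C y)
    (v : HeightOneSpectrum (𝓞 C)) (hv : (q : 𝓞 C) ∈ v.asIdeal) (z : C) :
    v.valuation C (g z) = v.valuation C z := by
  obtain ⟨a, b, hb, rfl⟩ := IsFractionRing.div_surjective (A := 𝓞 C) z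
  rw [map_div₀, map_div₀, map_div₀]
  have h : ∀ x : 𝓞 C, v.valuation C (g (algebraMap (𝓞 C) C x)) = v.valuation C (algebraMap (𝓞 C) C x) := by
    intro x
    have h1 : g (algebraMap (𝓞 C) C x) = algebraMap (𝓞 C) C (gO g x) := rfl
    rw [h1, v.valuation_of_algebraMap, v.valuation_of_algebraMap, intValuation_gO m' q hg v hv]
  rw [h, h]

include m' in
/-- For `α` integral at a prime over `q`, `g α - α` has positive valuation. -/
lemma valuation_gal_sub_lt {g : Gal(C/ℚ)}
    (hg : ∀ y : C', g (algebraMap C' C y) = algebraMap C' C y)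
    (v : HeightOneSpectrum (𝓞 C)) (hv : (q : 𝓞 C) ∈ v.asIdeal) (α : C)
    (hα : v.valuation C α ≤ 1) : v.valuation C (g α - α) < 1 := by
  obtain ⟨n, d, hnd⟩ := v.exists_primeCompl_mul_eq_of_integer (K := C) α hα
  have hd : v.valuation C (algebraMap (𝓞 C) C d) = 1 := by
    rw [v.valuation_of_algebraMap]
    exact (v.intValuation_eq_one_iff_mem_primeCompl _).mpr d.2
  have hgd : v.valuation C (g (algebraMap (𝓞 C) C d)) = 1 := by
    rw [valuation_gal m' q hg v hv, hd]
  have h1 : g α * g (algebraMap (𝓞 C) C d) = algebraMap (𝓞 C) C (gO g n) := by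
    rw [← map_mul, hnd]; rfl
  have h2 : (g α - α) * (g (algebraMap (𝓞 C) C d) * algebraMap (𝓞 C) C d) =
      algebraMap (𝓞 C) C ((gO g n - n) * d - n * (gO g d - d)) := by
    have h3 : g (algebraMap (𝓞 C) C d) = algebraMap (𝓞 C) C (gO g d) := rfl
    rw [map_sub, map_mul, map_mul, map_sub, map_sub, ← h1, ← hnd, ← h3]
    ring
  have h3 : v.valuation C (g α - α) = v.valuation C ((g α - α) *
      (g (algebraMap (𝓞 C) C d) * algebraMap (𝓞 C) C d)) := by
    rw [map_mul (v.valuation C), map_mul (v.valuation C), hd, hgd, mul_one, mul_one]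
  rw [h3, h2, v.valuation_of_algebraMap, v.intValuation_lt_one_iff_mem]
  exact sub_mem (Ideal.mul_mem_right _ _ (gO_sub_mem m' q hg v hv n))
    (Ideal.mul_mem_left _ _ (gO_sub_mem m' q hg v hv d))

include m' in
/-- The basic local estimate at a prime over `q`. -/
lemma valuation_pow_le (hq : ¬ q ∣ m') {g : Gal(C/ℚ)}
    (hg : ∀ y : C', g (algebraMap C' C y) = algebraMap C' C y)
    (hgen : ∀ x : C, g x = x → ∃ y : C', algebraMap C' C y = x)
    (v : HeightOneSpectrum (𝓞 C)) (hv : (q : 𝓞 C) ∈ v.asIdeal) (α : C)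
    (hα : v.valuation C α ≤ 1) {d : ℕ} (hd : 1 ≤ d) (hgd : (g ^ d) α = α) :
    v.valuation C (g α - α) ^ d ≤ v.valuation C (q : C) := by
  set x := g α - α with hx
  have hxlt : v.valuation C x < 1 := valuation_gal_sub_lt m' q hg v hv α hα
  have hgx : (g ^ d) x = x := by
    rw [hx, map_sub, hgd]
    have : (g ^ d) (g α) = g ((g ^ d) α) := by
      rw [← AlgEquiv.mul_apply, ← AlgEquiv.mul_apply, ← pow_succ, ← pow_succ']
    rw [this, hgd]
  set y := ∏ j ∈ Finset.range d, (g ^ j) x with hy
  have hgy : g y = y := by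
    have h1 : g y = ∏ j ∈ Finset.range d, (g ^ (j + 1)) x := by
      rw [hy, map_prod]
      refine Finset.prod_congr rfl fun j _ => ?_
      rw [pow_succ', AlgEquiv.mul_apply]
    have h2 := Finset.prod_range_succ (fun j => (g ^ j) x) d
    have h3 := Finset.prod_range_succ' (fun j => (g ^ j) x) d
    rw [h2] at h3
    simp only [hgx, pow_zero, AlgEquiv.one_apply] at h3
    rw [h1, hy]
    rcases eq_or_ne x 0 with h0 | h0
    · rw [h0]; simp
    · exact (mul_right_cancel₀ h0 h3).symm
  obtain ⟨y', hy'⟩ := hgen y hgy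
  have hval : ∀ j : ℕ, v.valuation C ((g ^ j) x) = v.valuation C x := by
    intro j
    induction j with
    | zero => simp
    | succ j ih => rw [pow_succ', AlgEquiv.mul_apply, valuation_gal m' q hg v hv, ih]
  have hvy : v.valuation C y = v.valuation C x ^ d := by
    rw [hy, map_prod]
    simp_rw [hval]
    simp
  have hlt : v.valuation C (algebraMap C' C y') < 1 := by
    rw [hy', hvy]
    exact pow_lt_one₀ zero_le hxlt (by omega)
  have := valuation_le_of_lt_one m' q hq v hv y' hlt
  rwa [hy', hvy] at this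

end Inertia


section Place

variable {C : Type*} [Field C] [NumberField C]

lemma finitePlace_lt_iff (v : FinitePlace C) (a b : C) :
    v a < v b ↔ v.maximalIdeal.valuation C a < v.maximalIdeal.valuation C b := by
  rw [← FinitePlace.norm_embedding_eq v a, ← FinitePlace.norm_embedding_eq v b,
    FinitePlace.norm_embedding', FinitePlace.norm_embedding', NNReal.coe_lt_coe]
  exact (WithZeroMulInt.toNNReal_strictMono
    (HeightOneSpectrum.one_lt_absNorm_nnreal v.maximalIdeal)).lt_iff_lt

lemma finitePlace_le_iff (v : FinitePlace C) (a b : C) :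
    v a ≤ v b ↔ v.maximalIdeal.valuation C a ≤ v.maximalIdeal.valuation C b := by
  rw [← not_lt, ← not_lt, finitePlace_lt_iff]

end Place

section Global

variable {C : Type*} [Field C] [NumberField C] {C' : Type*} [Field C'] [NumberField C']
  [Algebra C' C] (m' q : ℕ) [NeZero m'] [hqp : Fact q.Prime]
  [IsCyclotomicExtension {m'} ℚ C'] [IsCyclotomicExtension {m' * q} ℚ C]

include m' in
/-- The local estimate at every finite place. -/
lemma finitePlace_pow_le (hq : ¬ q ∣ m') {g : Gal(C/ℚ)}
    (hg : ∀ y : C', g (algebraMap C' C y) = algebraMap C' C y)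
    (hgen : ∀ x : C, g x = x → ∃ y : C', algebraMap C' C y = x)
    (α : C) {d : ℕ} (hd : 1 ≤ d) (hgd : (g ^ d) α = α) (v : FinitePlace C) :
    v (g α - α) ^ d ≤ v (q : C) * (max (v α) 1 * max (v (g α)) 1) ^ d := by
  by_cases hv : (q : 𝓞 C) ∈ v.maximalIdeal.asIdeal
  · -- primes over `q`
    have hgal : ∀ z : C, v (g z) = v z := by
      intro z
      have := valuation_gal m' q hg v.maximalIdeal hv z
      exact le_antisymm ((finitePlace_le_iff v _ _).mpr this.le)
        ((finitePlace_le_iff v _ _).mpr this.ge)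
    have hint : ∀ β : C, v β ≤ 1 → (g ^ d) β = β → v (g β - β) ^ d ≤ v (q : C) := by
      intro β hβ hgβ
      have h1 : v.maximalIdeal.valuation C β ≤ 1 := by
        have := (finitePlace_le_iff v β 1).mp (by simpa using hβ)
        simpa using this
      have h2 := valuation_pow_le m' q hq hg hgen v.maximalIdeal hv β h1 hd hgβ
      rw [← map_pow] at h2 ⊢
      exact (finitePlace_le_iff v _ _).mpr h2
    rcases le_or_gt (v α) 1 with hα | hα
    · calc v (g α - α) ^ d ≤ v (q : C) := hint α hα hgd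
        _ = v (q : C) * 1 := (mul_one _).symm
        _ ≤ _ := by
          have h3 : (1 : ℝ) ≤ max (v α) 1 * max (v (g α)) 1 :=
            one_le_mul_of_one_le_of_one_le (le_max_right _ _) (le_max_right _ _)
          have h4 := one_le_pow₀ h3 (n := d)
          have h5 : 0 ≤ v (q : C) := apply_nonneg v _
          gcongr
    · have hα0 : α ≠ 0 := by
        rintro rfl
        rw [map_zero] at hα
        linarith
      have hgα0 : g α ≠ 0 := by simpa using hα0
      have h1 : v α⁻¹ ≤ 1 := by
        rw [map_inv₀]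
        exact inv_le_one_of_one_le₀ hα.le
      have h2 : (g ^ d) α⁻¹ = α⁻¹ := by rw [map_inv₀, hgd]
      have h3 := hint α⁻¹ h1 h2
      have h4 : g α - α = -(α * g α * (g α⁻¹ - α⁻¹)) := by
        rw [map_inv₀]
        field_simp
        ring
      have h5 : v (g α - α) = v α * v (g α) * v (g α⁻¹ - α⁻¹) := by
        rw [h4, map_neg_eq_map, map_mul, map_mul]
      rw [h5, hgal α, max_eq_left hα.le, mul_pow, mul_comm (v (q : C))]
      gcongr
  · -- other primes
    have hvq : v (q : C) = 1 := by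
      have h1 := (FinitePlace.norm_eq_one_iff_notMem (K := C) v.maximalIdeal (q : 𝓞 C)).mpr hv
      rw [FinitePlace.norm_embedding_eq] at h1
      simpa using h1
    rw [hvq, one_mul]
    have h1 : v (g α - α) ≤ max (v (g α)) (v α) := by
      have := FinitePlace.add_le v (g α) (-α)
      rwa [← sub_eq_add_neg, map_neg_eq_map] at this
    have h2 : max (v (g α)) (v α) ≤ max (v α) 1 * max (v (g α)) 1 := by
      have ha : 0 ≤ v α := apply_nonneg v _
      have hb : 0 ≤ v (g α) := apply_nonneg v _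
      have ha1 : v α ≤ max (v α) 1 := le_max_left _ _
      have hb1 : v (g α) ≤ max (v (g α)) 1 := le_max_left _ _
      have ha2 : 1 ≤ max (v α) 1 := le_max_right _ _
      have hb2 : 1 ≤ max (v (g α)) 1 := le_max_right _ _
      refine max_le ?_ ?_
      · nlinarith
      · nlinarith
    have h3 : 0 ≤ v (g α - α) := apply_nonneg v _
    exact pow_le_pow_left₀ h3 (h1.trans h2) d

include m' in
/-- The global estimate: if `g α ≠ α` then the height of `α` is large. -/
theorem log_le_height (hq : ¬ q ∣ m') {g : Gal(C/ℚ)}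
    (hg : ∀ y : C', g (algebraMap C' C y) = algebraMap C' C y)
    (hgen : ∀ x : C, g x = x → ∃ y : C', algebraMap C' C y = x)
    (α : C) {d : ℕ} (hd : 1 ≤ d) (hgd : (g ^ d) α = α) (hne : g α ≠ α) :
    Module.finrank ℚ C * Real.log q ≤ d * (Module.finrank ℚ C * Real.log 2 +
      Height.logHeight₁ α + Height.logHeight₁ (g α)) := by
  set x := g α - α with hx
  have hx0 : x ≠ 0 := sub_ne_zero.mpr hne
  have hq0 : (q : C) ≠ 0 := by exact_mod_cast hqp.out.ne_zero
  have hprod := prod_abs_eq_one hx0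
  have hinf : ∏ w : InfinitePlace C, w x ^ w.mult ≤ 2 ^ Module.finrank ℚ C *
      ((∏ w : InfinitePlace C, max (w α) 1 ^ w.mult) *
        ∏ w : InfinitePlace C, max (w (g α)) 1 ^ w.mult) := by
    rw [← InfinitePlace.sum_mult_eq, ← Finset.prod_pow_eq_pow_sum, ← Finset.prod_mul_distrib,
      ← Finset.prod_mul_distrib]
    refine Finset.prod_le_prod (fun w _ => pow_nonneg (apply_nonneg w _) _) (fun w _ => ?_)
    rw [← mul_pow, ← mul_pow]
    refine pow_le_pow_left₀ (apply_nonneg w _) ?_ _
    have h1 : w x ≤ w (g α) + w α := by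
      rw [← InfinitePlace.norm_embedding_eq, ← InfinitePlace.norm_embedding_eq w (g α),
        ← InfinitePlace.norm_embedding_eq w α, hx, map_sub]
      exact norm_sub_le _ _
    have ha : 0 ≤ w α := apply_nonneg w _
    have hb : 0 ≤ w (g α) := apply_nonneg w _
    have ha1 : w α ≤ max (w α) 1 := le_max_left _ _
    have hb1 : w (g α) ≤ max (w (g α)) 1 := le_max_left _ _
    have ha2 : 1 ≤ max (w α) 1 := le_max_right _ _
    have hb2 : 1 ≤ max (w (g α)) 1 := le_max_right _ _
    nlinarith
  have hfin : (∏ᶠ v : FinitePlace C, v x) ^ d ≤ ((q : ℝ) ^ Module.finrank ℚ C)⁻¹ *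
      (finH α * finH (g α)) ^ d := by
    have hfx := FinitePlace.hasFiniteMulSupport hx0
    have hfq := FinitePlace.hasFiniteMulSupport hq0
    have hma := hasFiniteMulSupport_max α
    have hmb := hasFiniteMulSupport_max (g α)
    have hmab : (fun v : FinitePlace C => max (v α) 1 * max (v (g α)) 1).HasFiniteMulSupport :=
      hma.mul hmb
    have hmabd : (fun v : FinitePlace C =>
        (max (v α) 1 * max (v (g α)) 1) ^ d).HasFiniteMulSupport := hmab.pow d
    have hfxd : (fun v : FinitePlace C => v x ^ d).HasFiniteMulSupport := hfx.pow d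
    have hqfin : ∏ᶠ v : FinitePlace C, v (q : C) = ((q : ℝ) ^ Module.finrank ℚ C)⁻¹ := by
      rw [← finprod_natCast_inv (E := C) hqp.out.pos, finprod_inv_distrib, inv_inv]
    rw [finprod_pow hfx, ← hqfin, finH, finH, ← finprod_mul_distrib hma hmb, finprod_pow hmab,
      ← finprod_mul_distrib hfq hmabd]
    refine finprod_le_finprod hfxd (fun v => pow_nonneg (apply_nonneg v _) _)
      (hfq.mul hmabd) ?_
    intro v
    exact finitePlace_pow_le m' q hq hg hgen α hd hgd v
  -- combine
  set n := Module.finrank ℚ C with hn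
  have hH : ∀ z : C, Height.mulHeight₁ z
      = (∏ w : InfinitePlace C, max (w z) 1 ^ w.mult) * finH z := fun z => by
    rw [NumberField.mulHeight₁_eq]; rfl
  have hI0 : ∀ z : C, 0 ≤ ∏ w : InfinitePlace C, max (w z) 1 ^ w.mult := fun z =>
    Finset.prod_nonneg fun w _ => pow_nonneg (le_max_of_le_right zero_le_one) _
  have hF0 : ∀ z : C, 0 ≤ finH z := fun z => finprod_nonneg fun v => le_max_of_le_right zero_le_one
  have hx1 : 0 ≤ ∏ w : InfinitePlace C, w x ^ w.mult :=
    Finset.prod_nonneg fun w _ => pow_nonneg (apply_nonneg w _) _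
  have hx2 : 0 ≤ ∏ᶠ v : FinitePlace C, v x := finprod_nonneg fun v => apply_nonneg v _
  have hqpos : (0 : ℝ) < (q : ℝ) ^ n := pow_pos (by exact_mod_cast hqp.out.pos) _
  have hfinal : (q : ℝ) ^ n ≤ ((2 : ℝ) ^ n * Height.mulHeight₁ α * Height.mulHeight₁ (g α)) ^ d := by
    have h1 : (1 : ℝ) ≤ ((2 : ℝ) ^ n * ((∏ w : InfinitePlace C, max (w α) 1 ^ w.mult) *
        ∏ w : InfinitePlace C, max (w (g α)) 1 ^ w.mult)) ^ d *
        (((q : ℝ) ^ n)⁻¹ * (finH α * finH (g α)) ^ d) := by
      calc (1 : ℝ) = ((∏ w : InfinitePlace C, w x ^ w.mult) * ∏ᶠ v : FinitePlace C, v x) ^ d := by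
            rw [hprod, one_pow]
        _ = (∏ w : InfinitePlace C, w x ^ w.mult) ^ d * (∏ᶠ v : FinitePlace C, v x) ^ d :=
            mul_pow _ _ _
        _ ≤ _ := by
            refine mul_le_mul (pow_le_pow_left₀ hx1 hinf d) hfin (pow_nonneg hx2 d) ?_
            exact pow_nonneg (mul_nonneg (by positivity) (mul_nonneg (hI0 _) (hI0 _))) _
    have h2 : ((2 : ℝ) ^ n * ((∏ w : InfinitePlace C, max (w α) 1 ^ w.mult) *
        ∏ w : InfinitePlace C, max (w (g α)) 1 ^ w.mult)) ^ d *
        (((q : ℝ) ^ n)⁻¹ * (finH α * finH (g α)) ^ d) =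
        ((q : ℝ) ^ n)⁻¹ * ((2 : ℝ) ^ n * Height.mulHeight₁ α * Height.mulHeight₁ (g α)) ^ d := by
      rw [hH, hH]
      simp only [mul_pow]
      ring
    rw [h2] at h1
    calc (q : ℝ) ^ n = (q : ℝ) ^ n * 1 := (mul_one _).symm
      _ ≤ (q : ℝ) ^ n * (((q : ℝ) ^ n)⁻¹ *
          ((2 : ℝ) ^ n * Height.mulHeight₁ α * Height.mulHeight₁ (g α)) ^ d) := by gcongr
      _ = _ := by rw [← mul_assoc, mul_inv_cancel₀ hqpos.ne', one_mul]
  have hlog := Real.log_le_log hqpos hfinal
  have hp1 := Height.mulHeight₁_pos α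
  have hp2 := Height.mulHeight₁_pos (g α)
  rw [Real.log_pow, Real.log_pow, Real.log_mul (by positivity) (by positivity),
    Real.log_mul (by positivity) (by positivity), Real.log_pow] at hlog
  exact hlog

end Global

end Pool.Agent.Lib.MP_19fd7d_nt
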