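import Mathlib
import Pool.Agent.Lib.MP_19fd7d_nt.Heights
import Pool.Agent.Lib.MP_19fd7d_nt.USB
import Pool.Agent.Lib.MP_19fd7d_nt.Ramif

/-!
# Cyclotomic subfields of the algebraic numbers
-/

set_option autoImplicit false

open NumberField

namespace Pool.Agent.Lib.MP_19fd7d_nt

/-- Automorphisms of the algebraic numbers. -/
abbrev GQ := Qb ≃ₐ[ℚ] Qb

/-- The `m`-th cyclotomic field inside the algebraic numbers. -/
noncomputable def Cy (m : ℕ) : IntermediateField ℚ Qb :=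
  IntermediateField.adjoin ℚ {x : Qb | x ^ m = 1}

lemma exists_prim (m : ℕ) [NeZero m] : ∃ ζ : Qb, IsPrimitiveRoot ζ m := by
  have : NeZero ((m : ℕ) : Qb) := ⟨by exact_mod_cast NeZero.ne m⟩
  exact HasEnoughRootsOfUnity.exists_primitiveRoot Qb m

lemma Cy_eq_adjoin {m : ℕ} [NeZero m] {ζ : Qb} (hζ : IsPrimitiveRoot ζ m) :
    Cy m = IntermediateField.adjoin ℚ {ζ} := by
  apply le_antisymm
  · rw [Cy, IntermediateField.adjoin_le_iff]
    intro x hx
    obtain ⟨i, _, rfl⟩ := hζ.eq_pow_of_pow_eq_one hx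
    exact pow_mem (IntermediateField.mem_adjoin_simple_self ℚ ζ) i
  · rw [IntermediateField.adjoin_le_iff]
    intro x hx
    rw [Set.mem_singleton_iff] at hx
    subst hx
    exact IntermediateField.subset_adjoin ℚ _ hζ.pow_eq_one

lemma mem_Cy_of_pow_eq_one {m : ℕ} {z : Qb} (hz : z ^ m = 1) : z ∈ Cy m :=
  IntermediateField.subset_adjoin ℚ _ hz

lemma Cy_le_of_dvd {m n : ℕ} (h : m ∣ n) : Cy m ≤ Cy n := by
  rw [Cy, IntermediateField.adjoin_le_iff]
  intro x hx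
  obtain ⟨k, rfl⟩ := h
  apply mem_Cy_of_pow_eq_one
  rw [pow_mul, hx, one_pow]

instance Cy_isCyclotomic (m : ℕ) [NeZero m] : IsCyclotomicExtension {m} ℚ (Cy m) := by
  obtain ⟨ζ, hζ⟩ := exists_prim m
  rw [Cy_eq_adjoin hζ]
  exact hζ.intermediateField_adjoin_isCyclotomicExtension ℚ

instance Cy_finiteDimensional (m : ℕ) [NeZero m] : FiniteDimensional ℚ (Cy m) :=
  IsCyclotomicExtension.finiteDimensional {m} ℚ (Cy m)

instance Cy_isGalois (m : ℕ) [NeZero m] : IsGalois ℚ (Cy m) :=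
  IsCyclotomicExtension.isGalois {m} ℚ (Cy m)

instance Cy_numberField (m : ℕ) [NeZero m] : NumberField (Cy m) :=
  numberField_of_finiteDimensional _

/-- `g` fixes all `m`-th roots of unity. -/
def Fx (m : ℕ) (g : GQ) : Prop := ∀ z : Qb, z ^ m = 1 → g z = z

lemma Fx.apply_eq {m : ℕ} {g : GQ} (h : Fx m g) {x : Qb} (hx : x ∈ Cy m) : g x = x := by
  rw [Cy] at hx
  induction hx using IntermediateField.adjoin_induction with
  | mem x hx => exact h x hx
  | algebraMap r => exact g.commutes r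
  | add x y _ _ h1 h2 => rw [map_add, h1, h2]
  | inv x _ h1 => rw [map_inv₀, h1]
  | mul x y _ _ h1 h2 => rw [map_mul, h1, h2]

/-- Two automorphisms agreeing on the `m`-th roots of unity agree on `Cy m`. -/
lemma eqOn_Cy {m : ℕ} {g h : GQ} (hgh : ∀ z : Qb, z ^ m = 1 → g z = h z) {x : Qb}
    (hx : x ∈ Cy m) : g x = h x := by
  have h1 : Fx m (h⁻¹ * g) := by
    intro z hz
    rw [AlgEquiv.mul_apply, hgh z hz]
    exact h.symm_apply_apply z
  have h2 := h1.apply_eq hx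
  rw [AlgEquiv.mul_apply] at h2
  have h3 := congrArg h h2
  rw [← h3]
  exact (h.apply_symm_apply (g x)).symm

lemma mem_Cy_of_forall (m : ℕ) {x : Qb} (h : ∀ g : GQ, Fx m g → g x = x) : x ∈ Cy m := by
  rw [← InfiniteGalois.fixedField_fixingSubgroup (Cy m), IntermediateField.mem_fixedField_iff]
  intro g hg
  apply h g
  intro z hz
  exact (IntermediateField.mem_fixingSubgroup_iff _ _).mp hg z (mem_Cy_of_pow_eq_one hz)

/-- Every automorphism acts on `n`-th roots of unity by a power map. -/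
lemma exists_pow_eq (n : ℕ) [NeZero n] (g : GQ) :
    ∃ a : ℕ, a.Coprime n ∧ ∀ z : Qb, z ^ n = 1 → g z = z ^ a := by
  obtain ⟨ζ, hζ⟩ := exists_prim n
  have h1 : IsPrimitiveRoot (g ζ) n := hζ.map_of_injective g.injective
  obtain ⟨a, ha1, ha2, ha3⟩ := hζ.isPrimitiveRoot_iff.mp h1
  refine ⟨a, ha2, fun z hz => ?_⟩
  obtain ⟨i, _, rfl⟩ := hζ.eq_pow_of_pow_eq_one hz
  rw [map_pow, ← ha3, ← pow_mul, ← pow_mul, mul_comm]

/-- Every power map prime to `n` on the `n`-th roots of unity comes from an automorphism. -/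
lemma exists_aut (n : ℕ) [NeZero n] {b : ℕ} (hb : b.Coprime n) :
    ∃ g : GQ, ∀ z : Qb, z ^ n = 1 → g z = z ^ b := by
  obtain ⟨ζ, hζ⟩ := exists_prim n
  have h1 : IsPrimitiveRoot (ζ ^ b) n := hζ.pow_of_coprime b hb
  have h2 : IsConjRoot ℚ (ζ ^ b) ζ := by
    rw [isConjRoot_def, ← Polynomial.cyclotomic_eq_minpoly_rat h1 (NeZero.pos n),
      ← Polynomial.cyclotomic_eq_minpoly_rat hζ (NeZero.pos n)]
  obtain ⟨g, hg⟩ := isConjRoot_iff_exists_algEquiv.mp h2
  refine ⟨g, fun z hz => ?_⟩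
  obtain ⟨i, _, rfl⟩ := hζ.eq_pow_of_pow_eq_one hz
  rw [map_pow, hg, ← pow_mul, ← pow_mul, mul_comm]

lemma pow_eq_of_modEq {n a b : ℕ} {z : Qb} (hz : z ^ n = 1) (h : a ≡ b [MOD n]) :
    z ^ a = z ^ b := by
  rw [pow_eq_pow_mod a hz, pow_eq_pow_mod b hz, h]

/-- Claim E: independent action on `m'`-th and `q`-th roots of unity. -/
lemma exists_aut_coprime (m' q : ℕ) [NeZero m'] [NeZero q] (hmq : m'.Coprime q) {a : ℕ}
    (ha : a.Coprime q) : ∃ h : GQ, Fx m' h ∧ ∀ z : Qb, z ^ q = 1 → h z = z ^ a := by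
  obtain ⟨b, hb1, hb2⟩ := Nat.chineseRemainder hmq 1 a
  have hb : b.Coprime (m' * q) := by
    rw [Nat.coprime_mul_iff_right]
    constructor
    · rw [Nat.Coprime, hb1.gcd_eq]; simp
    · rw [Nat.Coprime, hb2.gcd_eq]; exact ha
  obtain ⟨g, hg⟩ := exists_aut (m' * q) hb
  refine ⟨g, fun z hz => ?_, fun z hz => ?_⟩
  · rw [hg z (by rw [pow_mul, hz, one_pow]), pow_eq_of_modEq hz hb1, pow_one]
  · rw [hg z (by rw [mul_comm, pow_mul, hz, one_pow]), pow_eq_of_modEq hz hb2]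

/-- Roots of unity of order dividing `m' q` split. -/
lemma exists_split {m' q : ℕ} [NeZero m'] [NeZero q] (hmq : m'.Coprime q) {z : Qb}
    (hz : z ^ (m' * q) = 1) : ∃ x y : Qb, x ^ m' = 1 ∧ y ^ q = 1 ∧ z = x * y := by
  obtain ⟨ζ, hζ⟩ := exists_prim (m' * q)
  -- use Bezout through the Chinese remainder theorem
  obtain ⟨b, hb1, hb2⟩ := Nat.chineseRemainder hmq 1 0
  obtain ⟨c, hc1, hc2⟩ := Nat.chineseRemainder hmq 0 1
  have hbc : b + c ≡ 1 [MOD (m' * q)] := by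
    rw [← Nat.modEq_and_modEq_iff_modEq_mul hmq]
    constructor
    · simpa using hb1.add hc1
    · simpa using hb2.add hc2
  refine ⟨z ^ b, z ^ c, ?_, ?_, ?_⟩
  · have : q ∣ b := (Nat.modEq_zero_iff_dvd).mp hb2
    obtain ⟨k, rfl⟩ := this
    rw [← pow_mul, mul_right_comm, mul_comm q m', pow_mul, hz, one_pow]
  · have : m' ∣ c := (Nat.modEq_zero_iff_dvd).mp hc1
    obtain ⟨k, rfl⟩ := this
    rw [← pow_mul, mul_right_comm, pow_mul, hz, one_pow]
  · rw [← pow_add, pow_eq_of_modEq hz hbc, pow_one]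

lemma eqOn_Cy_mul {m' q : ℕ} [NeZero m'] [NeZero q] (hmq : m'.Coprime q) {g h : GQ}
    (h1 : ∀ z : Qb, z ^ m' = 1 → g z = h z) (h2 : ∀ z : Qb, z ^ q = 1 → g z = h z) {x : Qb}
    (hx : x ∈ Cy (m' * q)) : g x = h x := by
  refine eqOn_Cy (fun z hz => ?_) hx
  obtain ⟨a, b, ha, hb, rfl⟩ := exists_split hmq hz
  rw [map_mul, map_mul, h1 a ha, h2 b hb]

lemma hA_gal (g : GQ) (α : Qb) : hA (g α) = hA α := by
  have : minpoly ℚ (g α) = minpoly ℚ α := minpoly.algEquiv_eq g α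
  rw [hA, hA, this]

lemma pow_apply_root {q a : ℕ} {g : GQ} (hg : ∀ z : Qb, z ^ q = 1 → g z = z ^ a) (k : ℕ) (z : Qb)
    (hz : z ^ q = 1) : (g ^ k) z = z ^ (a ^ k) := by
  induction k with
  | zero => simp
  | succ k ih =>
    rw [pow_succ', AlgEquiv.mul_apply, ih, map_pow, hg z hz, ← pow_mul, pow_succ, mul_comm]

lemma pow_apply_fixed {g : GQ} {x : Qb} (hx : g x = x) (k : ℕ) : (g ^ k) x = x := by
  induction k with
  | zero => simp
  | succ k ih => rw [pow_succ, AlgEquiv.mul_apply, hx, ih]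

/-- There is an element of `Gal(Cy (m' q) / Cy m')` generating this group. -/
lemma exists_generator (m' q : ℕ) [NeZero m'] [hqp : Fact q.Prime] (hmq : m'.Coprime q) :
    ∃ g₀ : GQ, Fx m' g₀ ∧ ∀ x ∈ Cy (m' * q), g₀ x = x → x ∈ Cy m' := by
  obtain ⟨u, hu⟩ := IsCyclic.exists_generator (α := (ZMod q)ˣ)
  obtain ⟨g₀, hg₀, hg₁⟩ := exists_aut_coprime m' q hmq (ZMod.val_coe_unit_coprime u)
  refine ⟨g₀, hg₀, fun x hx hgx => mem_Cy_of_forall m' fun g hg => ?_⟩
  obtain ⟨b, hb1, hb2⟩ := exists_pow_eq q g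
  obtain ⟨k, hk⟩ := (mem_powers_iff_mem_zpowers.mpr (hu (ZMod.unitOfCoprime b hb1)))
  have hk' : u ^ k = ZMod.unitOfCoprime b hb1 := hk
  have hmod : b ≡ ((u : ZMod q).val) ^ k [MOD q] := by
    rw [← ZMod.natCast_eq_natCast_iff, Nat.cast_pow, ZMod.natCast_zmod_val,
      ← ZMod.coe_unitOfCoprime b hb1, ← hk', Units.val_pow_eq_pow_val]
  have h1 : g x = (g₀ ^ k) x := by
    refine eqOn_Cy_mul hmq (fun z hz => ?_) (fun z hz => ?_) hx
    · rw [hg z hz, pow_apply_fixed (hg₀ z hz)]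
    · rw [hb2 z hz, pow_apply_root hg₁ k z hz, pow_eq_of_modEq hz hmod]
  rw [h1, pow_apply_fixed hgx]


lemma inclusion_algebraMap_val {C' C : IntermediateField ℚ Qb} (hle : C' ≤ C) (y : C') :
    ((((IntermediateField.inclusion hle).toAlgebra).algebraMap y : C) : Qb) = (y : Qb) := rfl

/-- Claim A in abstract form. -/
theorem log_le_of_restrict (C' C : IntermediateField ℚ Qb) [NumberField C'] [NumberField C]
    [IsGalois ℚ C] (m' q : ℕ) [NeZero m'] [hqp : Fact q.Prime]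
    [IsCyclotomicExtension {m'} ℚ C'] [IsCyclotomicExtension {m' * q} ℚ C] (hle : C' ≤ C)
    (hqdvd : ¬ q ∣ m') (g₀ : GQ) (hg₀ : ∀ x ∈ C', g₀ x = x) (hgen : ∀ x ∈ C, g₀ x = x → x ∈ C')
    {α : Qb} (hα : α ∈ C) {d : ℕ} (hd : 1 ≤ d) (hfix : (g₀ ^ d) α = α) (hne : g₀ α ≠ α) :
    Real.log q ≤ d * (Real.log 2 + 2 * hA α) := by
  let : Algebra C' C := (IntermediateField.inclusion hle).toAlgebra
  have hval : ∀ y : C', ((algebraMap C' C y : C) : Qb) = (y : Qb) :=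
    fun y => inclusion_algebraMap_val hle y
  obtain ⟨g, hg⟩ : ∃ g : C ≃ₐ[ℚ] C, g = AlgEquiv.restrictNormalHom C g₀ := ⟨_, rfl⟩
  have hgval : ∀ x : C, ((g x : C) : Qb) = g₀ (x : Qb) := fun x => by
    rw [hg]; exact AlgEquiv.restrictNormal_commutes g₀ C x
  have hgpow : ∀ (k : ℕ) (x : C), (((g ^ k) x : C) : Qb) = (g₀ ^ k) (x : Qb) := by
    intro k x
    induction k with
    | zero => simp
    | succ k ih => rw [pow_succ', pow_succ', AlgEquiv.mul_apply, AlgEquiv.mul_apply, hgval, ih]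
  have key := log_le_height (C := C) (C' := C') m' q hqdvd (g := g)
    (fun y => Subtype.ext (by rw [hgval, hval, hg₀ _ y.2]))
    (fun x hx => ⟨⟨x, hgen x x.2 (by rw [← hgval, hx])⟩, Subtype.ext (by rw [hval])⟩)
    ⟨α, hα⟩ hd (Subtype.ext (by rw [hgpow]; exact hfix))
    (fun h => hne (by
      have := congrArg (Subtype.val) h
      rw [hgval] at this
      exact this))
  rw [logHeight₁_eq_hA, logHeight₁_eq_hA, hgval, hA_gal] at key
  have hn : (0 : ℝ) < Module.finrank ℚ C := by exact_mod_cast Module.finrank_pos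
  have h3 : (Module.finrank ℚ C : ℝ) * Real.log q ≤
      (Module.finrank ℚ C : ℝ) * (d * (Real.log 2 + 2 * hA α)) := by
    calc _ ≤ _ := key
      _ = _ := by ring
  exact le_of_mul_le_mul_left h3 hn

/-- Claim A: small height forces an element into the smaller cyclotomic field. -/
theorem mem_Cy_of_height (m' q : ℕ) [NeZero m'] [hqp : Fact q.Prime] (hmq : m'.Coprime q) {α : Qb}
    (hα : α ∈ Cy (m' * q)) {d : ℕ} (hd : 1 ≤ d) (hfix : ∀ g : GQ, Fx m' g → (g ^ d) α = α)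
    (hlog : d * (Real.log 2 + 2 * hA α) < Real.log q) : α ∈ Cy m' := by
  obtain ⟨g₀, hg₀, hgen⟩ := exists_generator m' q hmq
  by_contra hnot
  have hne : g₀ α ≠ α := fun h => hnot (hgen α hα h)
  have hqdvd : ¬ q ∣ m' := fun h => by
    have := Nat.Coprime.eq_one_of_dvd hmq.symm h
    exact hqp.out.one_lt.ne' this
  have := log_le_of_restrict (Cy m') (Cy (m' * q)) m' q (Cy_le_of_dvd (Dvd.intro q rfl)) hqdvd g₀
    (fun x hx => hg₀.apply_eq hx) hgen hα hd (hfix g₀ hg₀) hne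
  linarith

end Pool.Agent.Lib.MP_19fd7d_nt
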