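import Mathlib
import Pool.Agent.Lib.MP_19fd7d_nt.Field

/-!
# A compositum of cyclic fields with the Northcott property
-/

set_option autoImplicit false

open NumberField

namespace Pool.Agent.Lib.MP_19fd7d_nt

/-- The subfield of `Cy q` fixed by all `d`-th powers of automorphisms. -/
noncomputable def LL (d q : ℕ) : IntermediateField ℚ Qb where
  carrier := {x | x ∈ Cy q ∧ ∀ g : GQ, (g ^ d) x = x}
  mul_mem' := by
    rintro x y ⟨hx, hx'⟩ ⟨hy, hy'⟩
    exact ⟨mul_mem hx hy, fun g => by rw [map_mul, hx' g, hy' g]⟩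
  add_mem' := by
    rintro x y ⟨hx, hx'⟩ ⟨hy, hy'⟩
    exact ⟨add_mem hx hy, fun g => by rw [map_add, hx' g, hy' g]⟩
  algebraMap_mem' := fun r => ⟨algebraMap_mem _ r, fun g => (g ^ d).commutes r⟩
  inv_mem' := by
    rintro x ⟨hx, hx'⟩
    exact ⟨inv_mem hx, fun g => by rw [map_inv₀, hx' g]⟩

lemma mem_LL {d q : ℕ} {x : Qb} : x ∈ LL d q ↔ x ∈ Cy q ∧ ∀ g : GQ, (g ^ d) x = x := Iff.rfl

lemma LL_le (d q : ℕ) : LL d q ≤ Cy q := fun _ hx => hx.1

lemma LL_stable {d q : ℕ} (σ : GQ) {x : Qb} (hx : x ∈ LL d q) : σ x ∈ LL d q := by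
  obtain ⟨hx1, hx2⟩ := hx
  refine ⟨?_, fun g => ?_⟩
  · have h : Cy q ≤ (Cy q).comap (σ : Qb →ₐ[ℚ] Qb) := by
      rw [Cy, IntermediateField.adjoin_le_iff]
      intro z hz
      change σ z ∈ Cy q
      apply mem_Cy_of_pow_eq_one
      rw [← map_pow, hz, map_one]
    exact h hx1
  · have h1 := hx2 (σ⁻¹ * g * σ)
    have h2 : (σ⁻¹ * g * σ) ^ d = σ⁻¹ * g ^ d * σ := by
      have := conj_pow (i := d) (a := σ⁻¹) (b := g)
      rwa [inv_inv] at this
    rw [h2, AlgEquiv.mul_apply, AlgEquiv.mul_apply] at h1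
    have h3 := congrArg σ h1
    calc (g ^ d) (σ x) = σ (σ⁻¹ ((g ^ d) (σ x))) := (σ.apply_symm_apply _).symm
      _ = σ x := h3

/-- The compositum of the fields `LL (2 ^ i) (q i)`. -/
noncomputable def FF (q : ℕ → ℕ) : IntermediateField ℚ Qb := ⨆ i, LL (2 ^ i) (q i)

/-- A finite part of the compositum. -/
noncomputable def Fin' (q : ℕ → ℕ) (n : ℕ) : IntermediateField ℚ Qb :=
  ⨆ i : Fin n, LL (2 ^ (i : ℕ)) (q i)

lemma LL_le_FF (q : ℕ → ℕ) (i : ℕ) : LL (2 ^ i) (q i) ≤ FF q := le_iSup (fun i => LL (2 ^ i) (q i)) i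

lemma FF_stable {q : ℕ → ℕ} (σ : GQ) {x : Qb} (hx : x ∈ FF q) : σ x ∈ FF q := by
  have h : FF q ≤ (FF q).comap (σ : Qb →ₐ[ℚ] Qb) := by
    refine iSup_le fun i => fun y hy => ?_
    change σ y ∈ FF q
    exact LL_le_FF q i (LL_stable σ hy)
  exact h hx

lemma exists_mem_Fin' {q : ℕ → ℕ} {x : Qb} (hx : x ∈ FF q) (n₀ : ℕ) :
    ∃ n, n₀ ≤ n ∧ x ∈ Fin' q n := by
  obtain ⟨s, hs⟩ := IntermediateField.exists_finset_of_mem_iSup hx
  refine ⟨max n₀ (s.sup id + 1), le_max_left _ _, ?_⟩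
  refine (?_ : (⨆ i ∈ s, LL (2 ^ i) (q i)) ≤ Fin' q (max n₀ (s.sup id + 1))) hs
  refine iSup_le fun i => iSup_le fun hi => ?_
  have h1 : i < max n₀ (s.sup id + 1) := by
    have : i ≤ s.sup id := Finset.le_sup (f := id) hi
    omega
  exact le_iSup (fun i : Fin (max n₀ (s.sup id + 1)) => LL (2 ^ (i : ℕ)) (q i)) ⟨i, h1⟩

/-- Conductor of a finite part. -/
def mm (q : ℕ → ℕ) (n : ℕ) : ℕ := ∏ i ∈ Finset.range n, q i

section

variable {q : ℕ → ℕ} (hq : ∀ i, (q i).Prime) (hmono : StrictMono q)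

include hq in
lemma mm_ne_zero (n : ℕ) : mm q n ≠ 0 :=
  Finset.prod_ne_zero_iff.mpr fun i _ => (hq i).ne_zero

lemma dvd_mm {i n : ℕ} (h : i < n) : q i ∣ mm q n :=
  Finset.dvd_prod_of_mem q (Finset.mem_range.mpr h)

lemma Fin'_le (n : ℕ) : Fin' q n ≤ Cy (mm q n) :=
  iSup_le fun i => (LL_le _ _).trans (Cy_le_of_dvd (dvd_mm i.2))

include hq hmono in
lemma coprime_q {i j : ℕ} (h : i ≠ j) : (q i).Coprime (q j) :=
  (Nat.coprime_primes (hq i) (hq j)).mpr fun h' => h (hmono.injective h')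

include hq hmono in
lemma coprime_mm (n : ℕ) : (mm q n).Coprime (q n) :=
  Nat.Coprime.prod_left fun _ hi => coprime_q hq hmono (Finset.mem_range.mp hi).ne

include hq hmono in
/-- One step of the descent. -/
lemma descent_step {n k : ℕ} (hk : k < n) {α : Qb} (hα : α ∈ Fin' q n)
    (hα' : α ∈ Cy (mm q (k + 1))) (hlog : (2 ^ k : ℕ) * (Real.log 2 + 2 * hA α) < Real.log (q k)) :
    α ∈ Cy (mm q k) := by
  have hmmk : mm q (k + 1) = mm q k * q k := Finset.prod_range_succ q k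
  have : NeZero (mm q k) := ⟨mm_ne_zero hq k⟩
  have : Fact (q k).Prime := ⟨hq k⟩
  have : NeZero (q k) := ⟨(hq k).ne_zero⟩
  rw [hmmk] at hα'
  refine mem_Cy_of_height (mm q k) (q k) (coprime_mm hq hmono k) hα' Nat.one_le_two_pow ?_ hlog
  intro g hg
  obtain ⟨b, hb1, hb2⟩ := exists_pow_eq (q k) g
  set m'' := ∏ i ∈ (Finset.range n).erase k, q i with hm''
  have hm0 : NeZero m'' := ⟨Finset.prod_ne_zero_iff.mpr fun i _ => (hq i).ne_zero⟩
  have hcop : m''.Coprime (q k) :=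
    Nat.Coprime.prod_left fun i hi => coprime_q hq hmono (Finset.ne_of_mem_erase hi)
  obtain ⟨h, hh1, hh2⟩ := exists_aut_coprime m'' (q k) hcop hb1
  have hdvd : mm q k ∣ m'' := by
    apply Finset.prod_dvd_prod_of_subset
    intro i hi
    rw [Finset.mem_range] at hi
    rw [Finset.mem_erase, Finset.mem_range]
    exact ⟨hi.ne, hi.trans hk⟩
  have hhfix : ∀ z : Qb, z ^ (mm q k) = 1 → h z = z := by
    intro z hz
    apply hh1 z
    obtain ⟨c, hc⟩ := hdvd
    rw [hc, pow_mul, hz, one_pow]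
  have h1 : (g ^ (2 ^ k)) α = (h ^ (2 ^ k)) α := by
    refine eqOn_Cy_mul (coprime_mm hq hmono k) (fun z hz => ?_) (fun z hz => ?_) hα'
    · rw [pow_apply_fixed (hg z hz), pow_apply_fixed (hhfix z hz)]
    · rw [pow_apply_root hb2 _ z hz, pow_apply_root hh2 _ z hz]
  rw [h1]
  have h2 : Fin' q n ≤ IntermediateField.fixedField (Subgroup.zpowers (h ^ (2 ^ k))) := by
    refine iSup_le fun i => fun x hx => ?_
    have hx' : (h ^ (2 ^ k)) x = x := by
      by_cases hik : (i : ℕ) = k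
      · rw [← hik]; exact hx.2 h
      · have h3 : q i ∣ m'' := by
          apply Finset.dvd_prod_of_mem
          rw [Finset.mem_erase, Finset.mem_range]
          exact ⟨hik, i.2⟩
        exact pow_apply_fixed (hh1.apply_eq (Cy_le_of_dvd h3 hx.1)) _
    have h4 : h ^ (2 ^ k) ∈ MulAction.stabilizer GQ x := hx'
    rw [IntermediateField.mem_fixedField_iff]
    intro f hf
    have h5 : f ∈ MulAction.stabilizer GQ x := (Subgroup.zpowers_le.mpr h4) hf
    exact h5
  have h3 := (IntermediateField.mem_fixedField_iff _ _).mp (h2 hα)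
  exact h3 _ (Subgroup.mem_zpowers _)

include hq hmono in
/-- The compositum has the Northcott property if the primes grow fast. -/
theorem northcott_FF (hbig : ∀ i, (4 : ℝ) ^ i ≤ Real.log (q i)) (B : ℝ) :
    {α : Qb | α ∈ FF q ∧ hA α ≤ B}.Finite := by
  obtain ⟨i₀, hi₀⟩ : ∃ i₀ : ℕ, Real.log 2 + 2 * B < (2 : ℝ) ^ i₀ :=
    pow_unbounded_of_one_lt _ (by norm_num)
  have : NeZero (mm q i₀) := ⟨mm_ne_zero hq i₀⟩
  have hmem : ∀ α ∈ FF q, hA α ≤ B → α ∈ Cy (mm q i₀) := by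
    intro α hα hB
    obtain ⟨n, hn, hαn⟩ := exists_mem_Fin' hα i₀
    have key : ∀ j, j ≤ n - i₀ → α ∈ Cy (mm q (n - j)) := by
      intro j
      induction j with
      | zero => intro _; exact Fin'_le n hαn
      | succ j ih =>
        intro hj
        have h1 := ih (by omega)
        have h2 : n - j = (n - (j + 1)) + 1 := by omega
        rw [h2] at h1
        refine descent_step hq hmono (n := n) (by omega) hαn h1 ?_
        set k := n - (j + 1) with hk
        have hki : i₀ ≤ k := by omega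
        have h3 : (2 : ℝ) ^ i₀ ≤ 2 ^ k := pow_le_pow_right₀ (by norm_num) hki
        have h4 : Real.log 2 + 2 * hA α < 2 ^ k := by linarith
        have h5 : (4 : ℝ) ^ k = 2 ^ k * 2 ^ k := by
          rw [← mul_pow]; norm_num
        calc ((2 ^ k : ℕ) : ℝ) * (Real.log 2 + 2 * hA α) < 2 ^ k * 2 ^ k := by
              push_cast
              exact mul_lt_mul_of_pos_left h4 (by positivity)
          _ = 4 ^ k := h5.symm
          _ ≤ _ := hbig k
    have h1 := key (n - i₀) le_rfl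
    rwa [Nat.sub_sub_self hn] at h1
  have hfin := finite_setOfPred_logHeight₁_le (K := Cy (mm q i₀))
    (Module.finrank ℚ (Cy (mm q i₀)) * B)
  refine (hfin.image (fun x : Cy (mm q i₀) => (x : Qb))).subset ?_
  rintro α ⟨hα, hB⟩
  refine ⟨⟨α, hmem α hα hB⟩, ?_, rfl⟩
  rw [Set.mem_ofPred_eq, logHeight₁_eq_hA]
  exact mul_le_mul_of_nonneg_left hB (Nat.cast_nonneg _)

end

end Pool.Agent.Lib.MP_19fd7d_nt
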