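import Mathlib
import Pool.Agent.Lib.MP_19fd7d_nt.Tower

/-!
# The quadratic subfield and powers of automorphisms
-/

set_option autoImplicit false

open NumberField

namespace Pool.Agent.Lib.MP_19fd7d_nt

/-- For a prime `q` congruent to `1` mod `4`, `q` is a square in `Cy q`. -/
lemma exists_sq_eq (q : ℕ) [hqp : Fact q.Prime] (h4 : q % 4 = 1) :
    ∃ s ∈ Cy q, s ^ 2 = (q : Qb) := by
  obtain ⟨ζ, hζ⟩ := exists_prim q
  have hchar : ringChar (ZMod q) ≠ 2 := by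
    rw [ZMod.ringChar_zmod_n]
    rintro rfl
    norm_num at h4
  set χ : MulChar (ZMod q) Qb := (quadraticChar (ZMod q)).ringHomComp (Int.castRingHom Qb) with hχ
  have hinj : Function.Injective (Int.castRingHom Qb) := Int.cast_injective
  have h1 : χ ≠ 1 := by
    rw [hχ, Ne, MulChar.ringHomComp_eq_one_iff hinj]
    exact quadraticChar_ne_one hchar
  have h2 : χ.IsQuadratic := (quadraticChar_isQuadratic (ZMod q)).comp _
  have h3 := AddChar.zmodChar_primitive_of_primitive_root q hζ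
  have h5 := gaussSum_sq h1 h2 h3
  refine ⟨gaussSum χ (AddChar.zmodChar q ((IsPrimitiveRoot.iff_def ζ q).mp hζ).left), ?_, ?_⟩
  · rw [gaussSum]
    refine sum_mem fun a _ => mul_mem ?_ ?_
    · change ((quadraticChar (ZMod q) a : ℤ) : Qb) ∈ Cy q
      exact intCast_mem _ _
    · rw [AddChar.zmodChar_apply]
      exact pow_mem (mem_Cy_of_pow_eq_one hζ.pow_eq_one) _
  · rw [h5, ZMod.card]
    have h6 : χ (-1) = 1 := by
      change ((quadraticChar (ZMod q) (-1) : ℤ) : Qb) = 1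
      rw [quadraticChar_neg_one hchar, ZMod.card, ZMod.χ₄_nat_one_mod_four h4]
      simp
    rw [h6, one_mul]

/-- The main group theoretic lemma. -/
lemma no_small_power (q : ℕ) [hqp : Fact q.Prime] {i : ℕ} (hi : 2 ^ i ∣ q - 1) {s : Qb}
    (hs : s ∈ Cy q) (hs2 : s ^ 2 = (q : Qb)) {g : GQ} (hgs : g s ≠ s) {j : ℕ} (hj1 : 1 ≤ j)
    (hj2 : j < 2 ^ i) (hfix : ∀ x ∈ LL (2 ^ i) q, (g ^ j) x = x) : False := by
  obtain ⟨C, hC⟩ : ∃ C : IntermediateField ℚ Qb, C = Cy q := ⟨_, rfl⟩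
  have hcyc : IsCyclotomicExtension {q} ℚ C := hC ▸ inferInstance
  have hfd : FiniteDimensional ℚ C := hC ▸ inferInstance
  have hgal : IsGalois ℚ C := hC ▸ inferInstance
  have hnf : NumberField C := numberField_of_finiteDimensional C
  let res : GQ →* (C ≃ₐ[ℚ] C) := AlgEquiv.restrictNormalHom C
  have hres : ∀ (g : GQ) (x : C), ((res g x : C) : Qb) = g (x : Qb) := fun g x =>
    AlgEquiv.restrictNormal_commutes g C x
  have hsurj : Function.Surjective res := AlgEquiv.restrictNormalHom_surjective Qb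
  let e := IsCyclotomicExtension.Rat.galEquivZMod q C
  have hcycl : IsCyclic (C ≃ₐ[ℚ] C) := isCyclic_of_surjective e.symm e.symm.surjective
  obtain ⟨σ, hσ⟩ := hcycl.exists_generator
  have hcard : Nat.card (C ≃ₐ[ℚ] C) = q - 1 := by
    rw [Nat.card_congr e.toEquiv, Nat.card_eq_fintype_card, ZMod.card_units_eq_totient,
      Nat.totient_prime hqp.out]
  have hord : orderOf σ = q - 1 := by rw [← hcard]; exact orderOf_eq_card_of_forall_mem_zpowers hσ
  have hpw : ∀ τ : C ≃ₐ[ℚ] C, ∃ k : ℕ, σ ^ k = τ := fun τ =>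
    mem_powers_iff_mem_zpowers.mpr (hσ τ)
  obtain ⟨t, ht⟩ := hpw (res g)
  have hodd : ¬ 2 ∣ t := by
    rintro ⟨r, rfl⟩
    obtain ⟨h, hh⟩ := hsurj (σ ^ r)
    apply hgs
    have h1 : (h s) ^ 2 = s ^ 2 := by rw [← map_pow, hs2, map_natCast]
    have h2 : h (h s) = s := by
      rcases sq_eq_sq_iff_eq_or_eq_neg.mp h1 with h3 | h3
      · rw [h3, h3]
      · rw [h3, map_neg, h3, neg_neg]
    have h3 : res g = res (h * h) := by
      rw [map_mul, hh, ← ht, ← pow_add, two_mul]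
    have hs' : s ∈ C := hC ▸ hs
    have h4 := hres g ⟨s, hs'⟩
    rw [h3, hres (h * h) ⟨s, hs'⟩] at h4
    rw [← h4]
    exact h2
  set H : Subgroup (C ≃ₐ[ℚ] C) := Subgroup.zpowers (σ ^ (2 ^ i)) with hH
  have hmem : res g ^ j ∈ H := by
    rw [← IntermediateField.fixingSubgroup_fixedField H, IntermediateField.mem_fixingSubgroup_iff]
    intro x hx
    rw [IntermediateField.mem_fixedField_iff] at hx
    have hxLL : (x : Qb) ∈ LL (2 ^ i) q := by
      refine ⟨hC ▸ x.2, fun u => ?_⟩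
      obtain ⟨k, hk⟩ := hpw (res u)
      have h1 : res (u ^ (2 ^ i)) = (σ ^ (2 ^ i)) ^ k := by
        rw [map_pow, ← hk, ← pow_mul, ← pow_mul, mul_comm]
      have h2 : res (u ^ (2 ^ i)) x = x := by
        rw [h1]
        exact hx _ (pow_mem (Subgroup.mem_zpowers _) k)
      rw [← hres, h2]
    have h3 := hfix x hxLL
    apply Subtype.ext
    rw [← map_pow, hres]
    exact h3
  obtain ⟨w, hw⟩ := Subgroup.mem_zpowers_iff.mp hmem
  rw [← ht, ← pow_mul, ← zpow_natCast, ← zpow_natCast, ← zpow_mul, zpow_eq_zpow_iff_modEq, hord] at hw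
  have h1 : ((2 ^ i : ℕ) : ℤ) ∣ ((t * j : ℕ) : ℤ) := by
    have h2 : ((2 ^ i : ℕ) : ℤ) ∣ ((q - 1 : ℕ) : ℤ) := Int.natCast_dvd_natCast.mpr hi
    have h3 : ((2 ^ i : ℕ) : ℤ) * w ≡ ((t * j : ℕ) : ℤ) [ZMOD ((2 ^ i : ℕ) : ℤ)] := hw.of_dvd h2
    have h4 : ((2 ^ i : ℕ) : ℤ) * w ≡ 0 [ZMOD ((2 ^ i : ℕ) : ℤ)] :=
      Int.modEq_zero_iff_dvd.mpr (Dvd.intro w rfl)
    exact Int.modEq_zero_iff_dvd.mp (h3.symm.trans h4)
  have h2 : 2 ^ i ∣ t * j := Int.natCast_dvd_natCast.mp h1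
  have h3 : Nat.Coprime (2 ^ i) t :=
    Nat.Coprime.pow_left i ((Nat.Prime.coprime_iff_not_dvd Nat.prime_two).mpr hodd)
  have h4 : 2 ^ i ∣ j := h3.dvd_of_dvd_mul_left h2
  exact absurd (Nat.le_of_dvd (by omega) h4) (by omega)

end Pool.Agent.Lib.MP_19fd7d_nt
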