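import Mathlib
import Pool.Agent.Lib.MP_19fd7d_nt.Quad

/-!
# Local considerations
-/

set_option autoImplicit false

open NumberField IsDedekindDomain

namespace Pool.Agent.Lib.MP_19fd7d_nt

section LocalSquare

variable {R : Type*} [CommRing R] [IsDedekindDomain R] {K : Type*} [Field K] [Algebra R K]
  [IsFractionRing R K] (v : HeightOneSpectrum R)

lemma exists_close (y : v.adicCompletion K) (hy : Valued.v y ≤ 1) :
    ∃ r : R, Valued.v (algebraMap K (v.adicCompletion K) (algebraMap R K r) - y) < 1 := by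
  have hopen : IsOpen {x : v.adicCompletion K | Valued.v.restrict x < 1} :=
    Valued.isOpen_ball (v.adicCompletion K) 1
  have hopen' : IsOpen {x : v.adicCompletion K | Valued.v.restrict (x - y) < 1} :=
    hopen.preimage (continuous_id.sub continuous_const)
  have hne : {x : v.adicCompletion K | Valued.v.restrict (x - y) < 1}.Nonempty := ⟨y, by simp⟩
  obtain ⟨k, hk⟩ := (HeightOneSpectrum.denseRange_algebraMap K v).exists_mem_open hopen' hne
  rw [Set.mem_ofPred_eq, Valuation.restrict_lt_iff_lt_embedding, map_one] at hk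
  have hk1 : Valued.v (algebraMap K (v.adicCompletion K) k) ≤ 1 := by
    have h1 : algebraMap K (v.adicCompletion K) k = (algebraMap K (v.adicCompletion K) k - y) + y := by
      ring
    rw [h1]
    exact (Valuation.map_add _ _ _).trans (max_le hk.le hy)
  have hk2 : v.valuation K k ≤ 1 := by
    rw [← HeightOneSpectrum.valuedAdicCompletion_eq_valuation']
    exact hk1
  obtain ⟨r, hr⟩ := v.exists_valuation_sub_lt_of_integer hk2 1
  refine ⟨r, ?_⟩
  have h2 : Valued.v (algebraMap K (v.adicCompletion K) (algebraMap R K r - k)) < 1 := by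
    have h3 := HeightOneSpectrum.valuedAdicCompletion_eq_valuation' v (algebraMap R K r - k)
    have h4 : v.valuation K (algebraMap R K r - k) < 1 := by simpa using hr
    rw [← h3] at h4
    exact h4
  have h3 : algebraMap K (v.adicCompletion K) (algebraMap R K r) - y =
      algebraMap K (v.adicCompletion K) (algebraMap R K r - k) +
      (algebraMap K (v.adicCompletion K) k - y) := by
    rw [map_sub]; ring
  rw [h3]
  exact (Valuation.map_add _ _ _).trans_lt (max_lt h2 hk)

lemma exists_sq_sub_mem (y : v.adicCompletion K) (a : R)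
    (hy : y ^ 2 = algebraMap K (v.adicCompletion K) (algebraMap R K a)) :
    ∃ r : R, r ^ 2 - a ∈ v.asIdeal := by
  have hval : ∀ x : R, Valued.v (algebraMap K (v.adicCompletion K) (algebraMap R K x)) =
      v.intValuation x := by
    intro x
    have h3 := HeightOneSpectrum.valuedAdicCompletion_eq_valuation' v (algebraMap R K x)
    rw [v.valuation_of_algebraMap] at h3
    rw [← h3]
    rfl
  have hy1 : Valued.v y ≤ 1 := by
    have h1 : Valued.v y ^ 2 ≤ 1 := by
      rw [← map_pow, hy, hval]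
      exact v.intValuation_le_one a
    exact (pow_le_one_iff (two_ne_zero)).mp h1
  obtain ⟨r, hr⟩ := exists_close v y hy1
  refine ⟨r, ?_⟩
  rw [← v.intValuation_lt_one_iff_mem, ← hval]
  have h1 : algebraMap K (v.adicCompletion K) (algebraMap R K (r ^ 2 - a)) =
      (algebraMap K (v.adicCompletion K) (algebraMap R K r) - y) *
      (algebraMap K (v.adicCompletion K) (algebraMap R K r) + y) := by
    rw [map_sub, map_sub, ← hy, map_pow, map_pow]; ring
  rw [h1, map_mul]
  have h2 : Valued.v (algebraMap K (v.adicCompletion K) (algebraMap R K r) + y) ≤ 1 := by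
    refine (Valuation.map_add _ _ _).trans (max_le ?_ hy1)
    rw [hval]
    exact v.intValuation_le_one r
  calc _ ≤ Valued.v (algebraMap K (v.adicCompletion K) (algebraMap R K r) - y) * 1 := by gcongr
    _ < 1 := by rw [mul_one]; exact hr

end LocalSquare

section Bot

/-- The rational numbers inside the algebraic numbers. -/
noncomputable abbrev QQ : IntermediateField ℚ Qb := ⊥

instance QQ_numberField : NumberField QQ := numberField_of_finiteDimensional _

lemma exists_int_eq (r : 𝓞 QQ) : ∃ n : ℤ, (n : 𝓞 QQ) = r := by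
  have h1 : IsIntegral ℤ ((r : QQ) : Qb) := by
    have h2 := r.isIntegral_coe
    exact h2.map (IsScalarTower.toAlgHom ℤ QQ Qb)
  obtain ⟨x, hx⟩ := IntermediateField.mem_bot.mp (r : QQ).2
  rw [← hx] at h1
  have h3 : IsIntegral ℤ x := (isIntegral_algebraMap_iff (algebraMap ℚ Qb).injective).mp h1
  obtain ⟨n, hn⟩ := IsIntegrallyClosed.isIntegral_iff.mp h3
  refine ⟨n, ?_⟩
  apply RingOfIntegers.ext
  apply Subtype.ext
  rw [← hx, ← hn]
  simp

lemma exists_prime_mem {R : Type*} [CommRing R] (I : Ideal R) [hI : I.IsPrime] (n : ℕ) (hn0 : n ≠ 0)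
    (hn : (n : R) ∈ I) : ∃ p : ℕ, p.Prime ∧ (p : R) ∈ I := by
  induction n using induction_on_primes with
  | zero => exact absurd rfl hn0
  | one => exact absurd ((Ideal.eq_top_iff_one I).mpr (by simpa using hn)) hI.ne_top
  | prime_mul p a hp ih =>
    rw [Nat.cast_mul] at hn
    rcases hI.mem_or_mem hn with h | h
    · exact ⟨p, hp, h⟩
    · exact ih (by rintro rfl; simp at hn0) h

/-- An integer which is a square in the completion is a square modulo the residue
characteristic. -/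
lemma isSquare_of_sq (v : HeightOneSpectrum (𝓞 QQ)) {p : ℕ} (hp : p.Prime)
    (hpv : (p : 𝓞 QQ) ∈ v.asIdeal) (a : ℕ) (y : v.adicCompletion QQ)
    (hy : y ^ 2 = (a : v.adicCompletion QQ)) : IsSquare (a : ZMod p) := by
  have : Fact p.Prime := ⟨hp⟩
  obtain ⟨r, hr⟩ := exists_sq_sub_mem v y (a : 𝓞 QQ) (by rw [hy, map_natCast, map_natCast])
  obtain ⟨n, rfl⟩ := exists_int_eq r
  have hdvd : (p : ℤ) ∣ n ^ 2 - a := by
    by_contra hcon
    have hcop : IsCoprime (p : ℤ) (n ^ 2 - a) :=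
      (Nat.prime_iff_prime_int.mp hp).irreducible.coprime_iff_not_dvd.mpr hcon
    obtain ⟨u, w, huw⟩ := hcop
    have h1 : (1 : 𝓞 QQ) ∈ v.asIdeal := by
      have h2 : (1 : 𝓞 QQ) = (u : 𝓞 QQ) * (p : 𝓞 QQ) + (w : 𝓞 QQ) * ((n : 𝓞 QQ) ^ 2 - (a : 𝓞 QQ)) := by
        have := congrArg (Int.cast : ℤ → 𝓞 QQ) huw
        push_cast at this
        exact this.symm
      rw [h2]
      exact add_mem (Ideal.mul_mem_left _ _ hpv) (Ideal.mul_mem_left _ _ hr)
    exact v.isPrime.ne_top ((Ideal.eq_top_iff_one _).mpr h1)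
  have h2 := (ZMod.intCast_zmod_eq_zero_iff_dvd (n ^ 2 - a) p).mpr hdvd
  push_cast at h2
  exact ⟨(n : ZMod p), by rw [← sq]; exact (sub_eq_zero.mp h2).symm⟩

end Bot

section Auto

lemma exists_moving {k Ω : Type*} [Field k] [Field Ω] [Algebra k Ω] [IsGalois k Ω] {a : k}
    (ha : ∀ y : k, y ^ 2 ≠ a) {x : Ω} (hx : x ^ 2 = algebraMap k Ω a) :
    ∃ τ : Ω ≃ₐ[k] Ω, τ x ≠ x := by
  by_contra hcon
  push Not at hcon
  obtain ⟨y, hy⟩ := (InfiniteGalois.mem_range_algebraMap_iff_fixed x).mpr hcon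
  apply ha y
  apply (algebraMap k Ω).injective
  rw [map_pow, hy, hx]

lemma exists_power_fix {k Ω : Type*} [Field k] [Field Ω] [Algebra k Ω]
    (M : IntermediateField k Ω) [FiniteDimensional k M] (τ : Ω ≃ₐ[k] Ω) :
    ∃ j, 1 ≤ j ∧ j ≤ Module.finrank k M ∧ ∀ x ∈ M, (τ ^ j) x = x := by
  let f : Fin (Module.finrank k M + 1) → (M →ₐ[k] Ω) :=
    fun n => ((τ ^ (n : ℕ) : Ω ≃ₐ[k] Ω) : Ω →ₐ[k] Ω).comp M.val
  have hcard : Fintype.card (M →ₐ[k] Ω) < Fintype.card (Fin (Module.finrank k M + 1)) := by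
    rw [Fintype.card_fin, ← Nat.card_eq_fintype_card]
    exact Nat.lt_succ_of_le (card_algHom_le_finrank k M Ω)
  obtain ⟨a, b, hab, hfab⟩ := Fintype.exists_ne_map_eq_of_card_lt f hcard
  have key : ∀ a b : Fin (Module.finrank k M + 1), (a : ℕ) < b → f a = f b →
      ∃ j, 1 ≤ j ∧ j ≤ Module.finrank k M ∧ ∀ x ∈ M, (τ ^ j) x = x := by
    intro a b hlt hfab
    refine ⟨b - a, by omega, by omega, fun x hx => ?_⟩
    have h1 : (τ ^ (a : ℕ)) x = (τ ^ (b : ℕ)) x := DFunLike.congr_fun hfab (⟨x, hx⟩ : M)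
    have h2 : (b : ℕ) = a + (b - a) := by omega
    rw [h2, pow_add, AlgEquiv.mul_apply] at h1
    exact ((τ ^ (a : ℕ)).injective h1).symm
  rcases lt_or_gt_of_ne (fun h => hab (Fin.ext h) : (a : ℕ) ≠ b) with h | h
  · exact key a b h hfab
  · exact key b a h hfab.symm

lemma exists_transfer {Ω : Type*} [Field Ω] [CharZero Ω] (ι : Qb →+* Ω) (τ : Ω ≃+* Ω) :
    ∃ g : GQ, ∀ x, ι (g x) = τ (ι x) := by
  let : Algebra Qb Ω := ι.toAlgebra
  have : IsScalarTower ℚ Qb Ω := by
    apply IsScalarTower.of_algebraMap_eq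
    intro x
    exact (map_ratCast (algebraMap ℚ Ω) x).trans (map_ratCast (ι.comp (algebraMap ℚ Qb)) x).symm
  let τ' : Ω ≃ₐ[ℚ] Ω := AlgEquiv.ofRingEquiv (f := τ) (fun x => by simp)
  refine ⟨τ'.restrictNormal Qb, fun x => ?_⟩
  exact AlgEquiv.restrictNormal_commutes τ' Qb x

end Auto

section Main

/-- The local degree is infinite. -/
theorem local_infinite {k Ω : Type*} [Field k] [Field Ω] [CharZero Ω] [Algebra k Ω]
    [IsGalois k Ω] (ι : Qb →+* Ω) {q : ℕ → ℕ} (hq : ∀ i, (q i).Prime)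
    (h2 : ∀ i, 2 ^ (i + 2) ∣ q i - 1) (hns : ∀ N : ℕ, ∃ i, N ≤ i ∧ ∀ y : k, y ^ 2 ≠ (q i : k))
    (hfin : FiniteDimensional k (IntermediateField.adjoin k (ι '' (FF q : Set Qb)))) : False := by
  set M := IntermediateField.adjoin k (ι '' (FF q : Set Qb)) with hM
  obtain ⟨i, hi, hi2⟩ := hns (Module.finrank k M)
  have : Fact (q i).Prime := ⟨hq i⟩
  have hmod4 : q i % 4 = 1 := by
    have h4 : 4 ∣ q i - 1 := (Dvd.intro_left (2 ^ i) (by norm_num [pow_add])).trans (h2 i)
    have := (hq i).one_lt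
    omega
  obtain ⟨s, hs, hs2⟩ := exists_sq_eq (q i) hmod4
  have hιs : (ι s) ^ 2 = algebraMap k Ω (q i : k) := by
    rw [← map_pow, hs2, map_natCast, map_natCast]
  obtain ⟨τ, hτ⟩ := exists_moving hi2 hιs
  obtain ⟨j, hj1, hj2, hj3⟩ := exists_power_fix M τ
  obtain ⟨g, hg⟩ := exists_transfer ι τ.toRingEquiv
  have hg' : ∀ x, ι (g x) = τ (ι x) := hg
  have hgs : g s ≠ s := fun h => hτ (by rw [← hg', h])
  have hpow : ∀ (n : ℕ) (x : Qb), ι ((g ^ n) x) = (τ ^ n) (ι x) := by
    intro n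
    induction n with
    | zero => intro x; simp
    | succ n ih => intro x; rw [pow_succ, pow_succ, AlgEquiv.mul_apply, AlgEquiv.mul_apply, ih, hg']
  refine no_small_power (q i) (i := i) ((pow_dvd_pow 2 (by omega)).trans (h2 i)) hs hs2 hgs hj1
    (hj2.trans_lt (hi.trans_lt Nat.lt_two_pow_self)) (fun x hx => ?_)
  apply ι.injective
  rw [hpow]
  apply hj3
  exact IntermediateField.subset_adjoin k _ ⟨x, LL_le_FF q i hx, rfl⟩

end Main

end Pool.Agent.Lib.MP_19fd7d_nt
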