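import Mathlib
import Pool.Agent.Lib.MP_19fd7d_nt.AbsHeight
import Pool.Agent.Lib.MP_19fd7d_nt.HomUpper
import Pool.Agent.Lib.MP_19fd7d_nt.Local

/-!
# Existence of canonical heights, and local degrees over the `p`-adic numbers
-/

set_option autoImplicit false

open Polynomial NumberField Filter

namespace Pool.Agent.Lib.MP_19fd7d_nt

lemma hA_zero : hA 0 = 0 := by
  classical
  obtain ⟨E, h1, h2, h3⟩ := exists_galois_subset {(0 : Qb)}
  have := numberField_of_finiteDimensional E
  have h := logHeight₁_eq_hA E 0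
  rw [Height.logHeight₁_zero] at h
  have h5 : (Module.finrank ℚ E : ℝ) ≠ 0 := by exact_mod_cast Module.finrank_pos.ne'
  have h6 : ((0 : E) : Qb) = 0 := rfl
  rw [h6] at h
  exact (mul_eq_zero.mp h.symm).resolve_left h5

/-- No iterate of the homogeneous map vanishes at a nonzero point. -/
lemma Phi_iterate_ne (f : RatFunc Qb) (hf : 1 ≤ max f.num.natDegree f.denom.natDegree)
    {z : Qb × Qb} (hz : z.1 ≠ 0 ∨ z.2 ≠ 0) (n : ℕ) :
    ((Phi f)^[n] z).1 ≠ 0 ∨ ((Phi f)^[n] z).2 ≠ 0 := by
  obtain ⟨C, hC0, hC⟩ := hA_hom_ge (RatFunc.isCoprime_num_denom f) rfl hf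
  induction n with
  | zero => exact hz
  | succ n ih =>
    rw [Function.iterate_succ_apply']
    exact (hC _ _ ih).1

/-- The limit defining the canonical height exists. -/
theorem cauchySeq_canon (f : RatFunc Qb) (hf : 2 ≤ max f.num.natDegree f.denom.natDegree)
    {z : Qb × Qb} (hz : z.1 ≠ 0 ∨ z.2 ≠ 0) :
    CauchySeq (fun n : ℕ => hA (((Phi f)^[n] z).1 / ((Phi f)^[n] z).2) /
      ((max f.num.natDegree f.denom.natDegree : ℕ) : ℝ) ^ n) := by
  set D := max f.num.natDegree f.denom.natDegree with hD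
  obtain ⟨C₁, hC₁0, hC₁⟩ := hA_hom_ge (RatFunc.isCoprime_num_denom f) hD (by omega)
  obtain ⟨C₂, hC₂0, hC₂⟩ := hA_hom_le f.num f.denom D
  have hDpos : (0 : ℝ) < D := by
    have : 0 < D := by omega
    exact_mod_cast this
  have hD2 : (2 : ℝ) ≤ D := by exact_mod_cast hf
  refine cauchySeq_of_le_geometric ((D : ℝ)⁻¹) (C₁ + C₂) (inv_lt_one_of_one_lt₀ (by linarith))
    fun n => ?_
  have hne := Phi_iterate_ne f (by omega) hz n
  have h1 := (hC₁ _ _ hne).2
  have h2 := hC₂ ((Phi f)^[n] z).1 ((Phi f)^[n] z).2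
  have h3 : (Phi f)^[n + 1] z =
      (hom D f.num ((Phi f)^[n] z).1 ((Phi f)^[n] z).2,
       hom D f.denom ((Phi f)^[n] z).1 ((Phi f)^[n] z).2) := by
    rw [Function.iterate_succ_apply']; rfl
  rw [h3, Real.dist_eq]
  set a := hA (((Phi f)^[n] z).1 / ((Phi f)^[n] z).2) with ha
  set b := hA (hom D f.num ((Phi f)^[n] z).1 ((Phi f)^[n] z).2 /
    hom D f.denom ((Phi f)^[n] z).1 ((Phi f)^[n] z).2) with hb
  have hpow : (0 : ℝ) < (D : ℝ) ^ n := pow_pos hDpos n
  have h4 : a / (D : ℝ) ^ n - b / (D : ℝ) ^ (n + 1) = (D * a - b) / (D : ℝ) ^ (n + 1) := by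
    rw [pow_succ]; field_simp
  have h5 : |D * a - b| ≤ C₁ + C₂ := by
    rw [abs_le]; constructor <;> linarith
  rw [h4, abs_div, abs_of_pos (pow_pos hDpos (n + 1)), inv_pow, ← div_eq_mul_inv]
  have h6 : (D : ℝ) ^ n ≤ (D : ℝ) ^ (n + 1) := pow_le_pow_right₀ (by linarith) (by omega)
  exact div_le_div₀ (by linarith) h5 hpow h6

/-- A natural number which is a square in `ℚ_p` is a square modulo `p`. -/
lemma isSquare_of_padic {p : ℕ} [hp : Fact p.Prime] (a : ℕ) (y : ℚ_[p])
    (hy : y ^ 2 = (a : ℚ_[p])) : IsSquare (a : ZMod p) := by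
  have h1 : ‖y‖ ≤ 1 := by
    have h2 : ‖y‖ ^ 2 ≤ 1 := by
      rw [← norm_pow, hy]
      exact_mod_cast Padic.norm_int_le_one (p := p) (a : ℤ)
    exact (pow_le_one_iff_of_nonneg (norm_nonneg _) two_ne_zero).mp h2
  let z : ℤ_[p] := ⟨y, h1⟩
  have h2 : z ^ 2 = (a : ℤ_[p]) := by
    apply Subtype.ext
    rw [PadicInt.coe_pow]
    simpa using hy
  refine ⟨PadicInt.toZMod z, ?_⟩
  rw [← sq, ← map_pow, h2, map_natCast]

/-- If all number fields in `F` generate extensions of degree at most `n`, then so does `F`. -/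
lemma finiteDimensional_of_bounded {k Ω : Type*} [Field k] [CharZero k] [Field Ω] [Algebra k Ω]
    {F : Type*} [Field F] [CharZero F] [Algebra.IsAlgebraic ℚ F] (ι : F →+* Ω)
    (hfin : ∀ L : IntermediateField ℚ F, FiniteDimensional ℚ L →
      FiniteDimensional k (IntermediateField.adjoin k (ι '' (L : Set F))))
    (n : ℕ) (hn : ∀ L : IntermediateField ℚ F, FiniteDimensional ℚ L →
      Module.finrank k (IntermediateField.adjoin k (ι '' (L : Set F))) < n) :
    FiniteDimensional k (IntermediateField.adjoin k (Set.range ι)) := by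
  classical
  let S : Set ℕ := {m | ∃ L : IntermediateField ℚ F, FiniteDimensional ℚ L ∧
    Module.finrank k (IntermediateField.adjoin k (ι '' (L : Set F))) = m}
  have hS : S.Finite := (Set.finite_lt_nat n).subset (by
    rintro m ⟨L, hL, rfl⟩
    exact hn L hL)
  have hSne : S.Nonempty := ⟨_, ⊥, inferInstance, rfl⟩
  obtain ⟨m, hm, hmax⟩ := hS.exists_maximal hSne
  obtain ⟨L, hL, rfl⟩ := hm
  have hLf := hfin L hL
  have key : IntermediateField.adjoin k (Set.range ι) ≤
      IntermediateField.adjoin k (ι '' (L : Set F)) := by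
    rw [IntermediateField.adjoin_le_iff]
    rintro _ ⟨x, rfl⟩
    let L' : IntermediateField ℚ F := L ⊔ IntermediateField.adjoin ℚ {x}
    have hx : FiniteDimensional ℚ (IntermediateField.adjoin ℚ {x}) :=
      IntermediateField.adjoin.finiteDimensional (Algebra.IsIntegral.isIntegral x)
    have hL' : FiniteDimensional ℚ L' := IntermediateField.finiteDimensional_sup _ _
    have hle : IntermediateField.adjoin k (ι '' (L : Set F)) ≤
        IntermediateField.adjoin k (ι '' (L' : Set F)) :=
      IntermediateField.adjoin.mono _ _ _ (Set.image_mono (show L ≤ L' from le_sup_left))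
    have hL'f := hfin L' hL'
    have h1 : Module.finrank k (IntermediateField.adjoin k (ι '' (L' : Set F))) ≤
        Module.finrank k (IntermediateField.adjoin k (ι '' (L : Set F))) := by
      by_contra hcon
      push Not at hcon
      exact absurd (hmax ⟨L', hL', rfl⟩ hcon.le) (not_le.mpr hcon)
    have h2 := IntermediateField.eq_of_le_of_finrank_le hle h1
    rw [h2]
    apply IntermediateField.subset_adjoin
    refine ⟨x, ?_, rfl⟩
    exact (show IntermediateField.adjoin ℚ {x} ≤ L' from le_sup_right)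
      (IntermediateField.mem_adjoin_simple_self ℚ x)
  have : FiniteDimensional k (IntermediateField.adjoin k (ι '' (L : Set F))) := hLf
  exact Module.Finite.of_injective
    (IntermediateField.inclusion key).toLinearMap (IntermediateField.inclusion key).injective

/-- A number field generates a finite extension of any field of characteristic zero. -/
lemma finiteDimensional_adjoin_image {k Ω : Type*} [Field k] [CharZero k] [Field Ω] [CharZero Ω]
    [Algebra k Ω] {F : Type*} [Field F] [CharZero F] (ι : F →+* Ω) (L : IntermediateField ℚ F)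
    [FiniteDimensional ℚ L] :
    FiniteDimensional k (IntermediateField.adjoin k (ι '' (L : Set F))) := by
  classical
  let b := Module.finBasis ℚ L
  let S : Set Ω := Set.range fun j => ι (b j : F)
  have hS : FiniteDimensional k (IntermediateField.adjoin k S) := by
    refine IntermediateField.finiteDimensional_adjoin ?_
    rintro _ ⟨j, rfl⟩
    have h1 : IsIntegral ℚ (b j : F) := (Algebra.IsIntegral.isIntegral (R := ℚ) (b j)).map L.val
    have h2 : IsIntegral ℚ (ι (b j : F)) := by
      have := h1.map (ι.toRatAlgHom)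
      exact this
    have : IsScalarTower ℚ k Ω := IsScalarTower.of_algebraMap_eq fun x => by
      rw [eq_ratCast, eq_ratCast, map_ratCast]
    exact h2.tower_top
  have hle : IntermediateField.adjoin k (ι '' (L : Set F)) ≤ IntermediateField.adjoin k S := by
    rw [IntermediateField.adjoin_le_iff]
    rintro _ ⟨x, hx, rfl⟩
    have h1 := b.sum_repr ⟨x, hx⟩
    have h2 : x = ∑ j, (b.repr ⟨x, hx⟩ j : ℚ) • (b j : F) := by
      have h3 := congrArg L.val h1
      rw [map_sum] at h3
      exact h3.symm.trans (Finset.sum_congr rfl fun j _ => rfl)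
    rw [h2, map_sum]
    refine sum_mem fun j _ => ?_
    rw [Algebra.smul_def, map_mul, eq_ratCast, map_ratCast]
    refine mul_mem ?_ (IntermediateField.subset_adjoin k S ⟨j, rfl⟩)
    have h3 : ((b.repr ⟨x, hx⟩ j : ℚ) : Ω) = algebraMap k Ω ((b.repr ⟨x, hx⟩ j : ℚ) : k) := by
      rw [map_ratCast]
    rw [h3]
    exact IntermediateField.algebraMap_mem _ _
  exact Module.Finite.of_injective
    (IntermediateField.inclusion hle).toLinearMap (IntermediateField.inclusion hle).injective

end Pool.Agent.Lib.MP_19fd7d_nt
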