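import Mathlib
import Pool.Agent.Lib.MP_19fd7d_nt.Local

/-!
# The compositum as a field over `QQ`
-/

set_option autoImplicit false

open NumberField IsDedekindDomain

namespace Pool.Agent.Lib.MP_19fd7d_nt

/-- The compositum as an extension of the rational numbers inside the algebraic numbers. -/
noncomputable abbrev FK (q : ℕ → ℕ) : IntermediateField QQ Qb :=
  IntermediateField.extendScalars (bot_le : QQ ≤ FF q)

lemma FK_isGalois (q : ℕ → ℕ) : IsGalois QQ (FK q) := by
  have h0 : IsAlgClosure QQ Qb := ⟨inferInstance, Algebra.IsAlgebraic.tower_top (K := ℚ) QQ⟩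
  have h1 : Normal QQ Qb := IsAlgClosure.normal QQ Qb
  have h2 : Normal QQ (FK q) := by
    rw [IntermediateField.normal_iff_forall_map_le']
    rintro σ _ ⟨x, hx, rfl⟩
    exact FF_stable (σ.restrictScalars ℚ) hx
  exact {}

lemma finite_two_mem : {v : HeightOneSpectrum (𝓞 QQ) | (2 : 𝓞 QQ) ∈ v.asIdeal}.Finite := by
  have h := Ideal.finite_factors (R := 𝓞 QQ) (I := Ideal.span {2})
    (by rw [Ne, Ideal.zero_eq_bot, Ideal.span_singleton_eq_bot]; norm_num)
  refine h.subset fun v hv => ?_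
  rw [Set.mem_ofPred_eq, Ideal.dvd_span_singleton]
  exact hv

lemma exists_prime_mem_asIdeal (v : HeightOneSpectrum (𝓞 QQ)) :
    ∃ p : ℕ, p.Prime ∧ (p : 𝓞 QQ) ∈ v.asIdeal := by
  have := v.isPrime
  exact exists_prime_mem v.asIdeal (Ideal.absNorm v.asIdeal)
    (by rw [Ne, Ideal.absNorm_eq_zero_iff]; exact v.ne_bot) (Ideal.absNorm_mem _)

end Pool.Agent.Lib.MP_19fd7d_nt
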