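import Mathlib

/-!
# A rapidly growing sequence of primes with prescribed congruences
-/

set_option autoImplicit false

namespace Pool.Agent.Lib.MP_19fd7d_nt

lemma exists_nonresidue {p : ℕ} (hp : p.Prime) (hp2 : p ≠ 2) :
    ∃ a : ℕ, a.Coprime p ∧ ¬ IsSquare (a : ZMod p) := by
  have : Fact p.Prime := ⟨hp⟩
  obtain ⟨a, ha⟩ := FiniteField.exists_nonsquare (F := ZMod p) (by rwa [ZMod.ringChar_zmod_n])
  refine ⟨a.val, ?_, by rwa [ZMod.natCast_zmod_val]⟩
  rw [Nat.coprime_comm, hp.coprime_iff_not_dvd]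
  intro h
  rw [← ZMod.natCast_eq_zero_iff, ZMod.natCast_zmod_val] at h
  exact ha (by rw [h]; exact IsSquare.zero)

lemma dirichlet_step (i N : ℕ) : ∃ q > N, q.Prime ∧ 2 ^ (i + 2) ∣ q - 1 ∧
    ∀ p : ℕ, p.Prime → p ≠ 2 → p ≤ i → ¬ IsSquare (q : ZMod p) := by
  classical
  have hch : ∀ p : ℕ, ∃ a : ℕ, p.Prime → p ≠ 2 → (a.Coprime p ∧ ¬ IsSquare (a : ZMod p)) := by
    intro p
    by_cases h : p.Prime ∧ p ≠ 2
    · obtain ⟨a, ha⟩ := exists_nonresidue h.1 h.2
      exact ⟨a, fun _ _ => ha⟩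
    · exact ⟨0, fun h1 h2 => absurd ⟨h1, h2⟩ h⟩
  choose b hb using hch
  set t : Finset ℕ := insert 2 ((Finset.range (i + 1)).filter Nat.Prime) with ht
  set s : ℕ → ℕ := fun p => if p = 2 then 2 ^ (i + 2) else p with hs
  set a : ℕ → ℕ := fun p => if p = 2 then 1 else b p with ha
  have htp : ∀ p ∈ t, p.Prime := by
    intro p hp
    rw [ht, Finset.mem_insert, Finset.mem_filter] at hp
    rcases hp with rfl | hp
    · exact Nat.prime_two
    · exact hp.2
  have hs0 : ∀ p ∈ t, s p ≠ 0 := by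
    intro p hp
    simp only [hs]
    split_ifs with h
    · positivity
    · exact (htp p hp).ne_zero
  have hcop : Set.Pairwise (t : Set ℕ) (Function.onFun Nat.Coprime s) := by
    intro p hp p' hp' hne
    have h1 := htp p hp
    have h2 := htp p' hp'
    have h3 : p.Coprime p' := (Nat.coprime_primes h1 h2).mpr hne
    simp only [Function.onFun, hs]
    split_ifs with h4 h5 h5
    · exact absurd (h4.trans h5.symm) hne
    · rw [h4] at h3; exact h3.pow_left _
    · rw [h5] at h3; exact h3.pow_right _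
    · exact h3
  obtain ⟨k, hk⟩ := Nat.chineseRemainderOfFinset a s t hs0 hcop
  have hac : ∀ p ∈ t, (a p).Coprime (s p) := by
    intro p hp
    simp only [ha, hs]
    split_ifs with h
    · exact Nat.coprime_one_left _
    · exact (hb p (htp p hp) h).1
  have hkc : k.Coprime (∏ p ∈ t, s p) := by
    apply Nat.Coprime.prod_right
    intro p hp
    rw [Nat.Coprime, (hk p hp).gcd_eq]
    exact hac p hp
  obtain ⟨q, hqN, hqp, hqk⟩ := Nat.forall_exists_prime_gt_and_modEq N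
    (Finset.prod_ne_zero_iff.mpr hs0) hkc
  have hqa : ∀ p ∈ t, q ≡ a p [MOD s p] := fun p hp =>
    (hqk.of_dvd (Finset.dvd_prod_of_mem s hp)).trans (hk p hp)
  refine ⟨q, hqN, hqp, ?_, ?_⟩
  · have h := hqa 2 (Finset.mem_insert_self _ _)
    simp only [ha, hs, if_pos] at h
    exact (Nat.modEq_iff_dvd' hqp.one_lt.le).mp h.symm
  · intro p hp hp2 hpi
    have hpt : p ∈ t := by
      rw [ht, Finset.mem_insert, Finset.mem_filter, Finset.mem_range]
      exact Or.inr ⟨by omega, hp⟩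
    have h := hqa p hpt
    simp only [ha, hs, if_neg hp2] at h
    rw [← ZMod.natCast_eq_natCast_iff] at h
    rw [h]
    exact (hb p hp hp2).2

/-- The sequence of primes. -/
theorem exists_seq : ∃ q : ℕ → ℕ, (∀ i, (q i).Prime) ∧ StrictMono q ∧
    (∀ i, 2 ^ (i + 2) ∣ q i - 1) ∧ (∀ i, (4 : ℝ) ^ i ≤ Real.log (q i)) ∧
    ∀ i p : ℕ, p.Prime → p ≠ 2 → p ≤ i → ¬ IsSquare (q i : ZMod p) := by
  choose f hf using dirichlet_step
  let B : ℕ → ℕ := fun i => ⌈Real.exp ((4 : ℝ) ^ i)⌉₊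
  let q : ℕ → ℕ := fun n => Nat.rec (f 0 (B 0)) (fun i prev => f (i + 1) (max prev (B (i + 1)))) n
  have hq : ∀ i, ∃ N, q i = f i N ∧ B i ≤ N := by
    intro i
    cases i with
    | zero => exact ⟨B 0, rfl, le_rfl⟩
    | succ i => exact ⟨max (q i) (B (i + 1)), rfl, le_max_right _ _⟩
  refine ⟨q, fun i => ?_, strictMono_nat_of_lt_succ fun i => ?_, fun i => ?_, fun i => ?_,
    fun i => ?_⟩
  · obtain ⟨N, h1, h2⟩ := hq i
    rw [h1]; exact (hf i N).2.1
  · exact (le_max_left _ _).trans_lt (hf (i + 1) (max (q i) (B (i + 1)))).1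
  · obtain ⟨N, h1, h2⟩ := hq i
    rw [h1]; exact (hf i N).2.2.1
  · obtain ⟨N, h1, h2⟩ := hq i
    have h3 : B i ≤ q i := by rw [h1]; exact h2.trans (hf i N).1.le
    have h4 := Nat.ceil_le.mp h3
    rw [Real.le_log_iff_exp_le ((Real.exp_pos _).trans_le h4)]
    exact h4
  · obtain ⟨N, h1, h2⟩ := hq i
    rw [h1]; exact (hf i N).2.2.2

end Pool.Agent.Lib.MP_19fd7d_nt
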